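import Pool.Agent.K3h96.JI.Filt

/-!
# Automorphisms of `F₂[[x]]` trivial on the associated graded ring
-/

namespace Pool.Agent.K3h96.JI

open MvPowerSeries

variable {σ : Type}

/-- The group of algebra automorphisms of the power series ring. -/
abbrev Γ (σ : Type) := A σ ≃ₐ[ZMod 2] A σ

/-- `g` moves elements `j` steps deeper. -/
def Dep (j : ℕ) (g : A σ → A σ) : Prop := ∀ t, ∀ a ∈ F t, g a - a ∈ F (t + j)

theorem Dep.pres {g : A σ → A σ} {j : ℕ} (h : Dep j g) {t : ℕ} {a : A σ} (ha : a ∈ F t) :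
    g a ∈ F t := by
  have := (F t).add_mem (F_mono (by omega) (h t a ha)) ha
  simpa using this

theorem Dep.mono {g : A σ → A σ} {i j : ℕ} (h : Dep j g) (hij : i ≤ j) : Dep i g :=
  fun t a ha => F_mono (by omega) (h t a ha)

/-- The congruence subgroups. -/
def N (σ : Type) (j : ℕ) : Subgroup (Γ σ) where
  carrier := {g | Dep 1 g ∧ Dep j g}
  one_mem' := by
    constructor <;> intro t a _ <;> simp
  mul_mem' := by
    rintro g h ⟨g1, gj⟩ ⟨h1, hj⟩
    constructor
    · intro t a ha
      have e : (g * h) a - a = (g (h a) - h a) + (h a - a) := by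
        rw [AlgEquiv.mul_apply]; ring
      rw [e]
      exact (F _).add_mem (g1 t _ (h1.pres ha)) (h1 t a ha)
    · intro t a ha
      have e : (g * h) a - a = (g (h a) - h a) + (h a - a) := by
        rw [AlgEquiv.mul_apply]; ring
      rw [e]
      exact (F _).add_mem (gj t _ (h1.pres ha)) (hj t a ha)
  inv_mem' := by
    rintro g ⟨g1, gj⟩
    have key : ∀ t, ∀ a ∈ F t, g⁻¹ a ∈ F t := by
      intro t a ha
      have : ∀ s ≤ t, g⁻¹ a ∈ F s := by
        intro s
        induction s with
        | zero => intro _; exact F_zero _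
        | succ s ih =>
          intro hs
          have h1 := g1 s _ (ih (by omega))
          have h2 : g (g⁻¹ a) = a := by
            rw [← AlgEquiv.mul_apply, mul_inv_cancel, AlgEquiv.one_apply]
          rw [h2] at h1
          have h3 : a ∈ F (s + 1) := F_mono hs ha
          have := (F (s + 1)).sub_mem h3 h1
          simpa using this
      exact this t le_rfl
    have h2 : ∀ a, g (g⁻¹ a) = a := by
      intro a
      rw [← AlgEquiv.mul_apply, mul_inv_cancel, AlgEquiv.one_apply]
    constructor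
    · intro t a ha
      have := g1 t _ (key t a ha)
      rw [h2] at this
      have := (F _).neg_mem this
      simpa using this
    · intro t a ha
      have := gj t _ (key t a ha)
      rw [h2] at this
      have := (F _).neg_mem this
      simpa using this

theorem mem_N {j : ℕ} {g : Γ σ} : g ∈ N σ j ↔ Dep 1 g ∧ Dep j g := Iff.rfl

theorem N_dep {j : ℕ} {g : Γ σ} (h : g ∈ N σ j) : Dep j g := h.2

theorem N_one {j : ℕ} {g : Γ σ} (h : g ∈ N σ j) : g ∈ N σ 1 := ⟨h.1, h.1⟩

theorem N_mono {i j : ℕ} (hij : i ≤ j) {g : Γ σ} (h : g ∈ N σ j) : g ∈ N σ i :=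
  ⟨h.1, h.2.mono hij⟩

theorem pres {j : ℕ} {g : Γ σ} (h : g ∈ N σ j) {t : ℕ} {a : A σ} (ha : a ∈ F t) : g a ∈ F t :=
  h.1.pres ha

theorem apply_inv (g : Γ σ) (a : A σ) : g (g⁻¹ a) = a := by
  rw [← AlgEquiv.mul_apply, mul_inv_cancel, AlgEquiv.one_apply]

theorem inv_apply (g : Γ σ) (a : A σ) : g⁻¹ (g a) = a := by
  rw [← AlgEquiv.mul_apply, inv_mul_cancel, AlgEquiv.one_apply]

theorem dep_of_X [Finite σ] (φ : A σ →ₐ[ZMod 2] A σ) (hF : ∀ t, ∀ a ∈ F t, φ a ∈ F t) (j : ℕ)
    (hX : ∀ i, φ (X i) - X i ∈ F (j + 1)) : Dep j φ := by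
  have hmul : ∀ {s t : ℕ} {a b : A σ}, a ∈ F s → b ∈ F t → φ a - a ∈ F (s + j) →
      φ b - b ∈ F (t + j) → φ (a * b) - a * b ∈ F (s + t + j) := by
    intro s t a b ha hb h1 h2
    have e : φ (a * b) - a * b = (φ a - a) * φ b + a * (φ b - b) := by
      rw [map_mul]; ring
    rw [e]
    exact (F _).add_mem (mul_mem_F' h1 (hF _ _ hb) (by omega)) (mul_mem_F' ha h2 (by omega))
  have hmon : ∀ e : σ →₀ ℕ, φ (monomial e 1) - monomial e 1 ∈ F (Finsupp.degree e + j) := by
    intro e
    induction e using Finsupp.induction_linear with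
    | zero =>
      rw [show (monomial (0 : σ →₀ ℕ) (1 : ZMod 2) : A σ) = 1 from rfl, map_one, sub_self]
      exact (F _).zero_mem
    | add e e' h h' =>
      have := hmul (monomial_mem_F e 1 le_rfl) (monomial_mem_F e' 1 le_rfl) h h'
      rw [monomial_mul_monomial, one_mul] at this
      rwa [map_add]
    | single i n =>
      induction n with
      | zero =>
        rw [Finsupp.single_zero, show (monomial (0 : σ →₀ ℕ) (1 : ZMod 2) : A σ) = 1 from rfl,
          map_one, sub_self]
        exact (F _).zero_mem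
      | succ n ih =>
        have hX' : φ (monomial (Finsupp.single i 1) 1) - monomial (Finsupp.single i 1) 1
            ∈ F (1 + j) := by
          have := hX i
          rw [add_comm]
          exact this
        have := hmul (monomial_mem_F (Finsupp.single i n) 1 le_rfl)
          (monomial_mem_F (Finsupp.single i 1) 1 (by simp : 1 ≤ _)) ih hX'
        rw [monomial_mul_monomial, one_mul, ← Finsupp.single_add] at this
        simpa using this
  intro t a ha
  refine F_induction (t := t) (T := t + j) (P := fun a => φ a - a ∈ F (t + j)) ?_ ?_ ?_ ha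
  · intro a b h1 h2
    have e : φ (a + b) - (a + b) = (φ a - a) + (φ b - b) := by rw [map_add]; ring
    rw [e]
    exact (F _).add_mem h1 h2
  · intro e he
    exact F_mono (by omega) (hmon e)
  · intro a ha
    exact (F _).sub_mem (hF _ _ ha) ha

theorem bijective_of_dep (φ : A σ →ₐ[ZMod 2] A σ) (h : Dep 1 φ) : Function.Bijective φ := by
  constructor
  · rw [injective_iff_map_eq_zero]
    intro a ha
    apply eq_zero_of_F
    intro t
    induction t with
    | zero => exact F_zero _
    | succ t ih =>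
      have := h t a ih
      rw [ha, zero_sub] at this
      simpa using (F _).neg_mem this
  · intro b
    -- partial sums
    let c : ℕ → A σ := fun n => Nat.rec b (fun _ x => x - φ x) n
    have hc0 : c 0 = b := rfl
    have hc : ∀ n, c (n + 1) = c n - φ (c n) := fun n => rfl
    have hcF : ∀ n, c n ∈ F n := by
      intro n
      induction n with
      | zero => exact F_zero _
      | succ n ih =>
        rw [hc]
        have := (F _).neg_mem (h n _ ih)
        simpa using this
    let s : ℕ → A σ := fun n => ∑ i ∈ Finset.range n, c i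
    obtain ⟨a, ha⟩ := complete s (by
      intro n
      have : s (n + 1) - s n = c n := by
        simp only [s, Finset.sum_range_succ]; ring
      rw [this]; exact hcF n)
    refine ⟨a, ?_⟩
    have hs : ∀ n, φ (s n) = b - c n := by
      intro n
      induction n with
      | zero => simp [s, hc0]
      | succ n ih =>
        have e : s (n + 1) = s n + c n := by simp only [s, Finset.sum_range_succ]
        rw [e, map_add, ih, hc]
        ring
    rw [← sub_eq_zero]
    apply eq_zero_of_F
    intro t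
    have e : φ a - b = φ (a - s t) - c t := by rw [map_sub, hs]; ring
    rw [e]
    exact (F _).sub_mem (h.pres (ha t)) (hcF t)

theorem hasSubst_of_F [Finite σ] {y : σ → A σ} (hy : ∀ i, y i ∈ F 1) : HasSubst y := by
  apply hasSubst_of_constantCoeff_zero
  intro i
  exact mem_F'.mp (hy i) 0 (by simp)

theorem subst_mem_F [Finite σ] {y : σ → A σ} (hy : ∀ i, y i ∈ F 1) {t : ℕ} {a : A σ}
    (ha : a ∈ F t) : substAlgHom (R := ZMod 2) (hasSubst_of_F hy) a ∈ F t := by
  rw [coe_substAlgHom, mem_F]
  refine le_trans ?_ (le_order_subst (hasSubst_of_F hy) a)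
  have h1 : (1 : ℕ∞) ≤ ⨅ i, (y i).order := le_iInf (fun i => by simpa using mem_F.mp (hy i))
  calc (t : ℕ∞) = 1 * t := by simp
    _ ≤ (⨅ i, (y i).order) * a.order := mul_le_mul' h1 ha

theorem exists_aut [Finite σ] (j : ℕ) (hj : 1 ≤ j) (D : σ → A σ) (hD : ∀ i, D i ∈ F (j + 1)) :
    ∃ g ∈ N σ j, ∀ i, g (X i) = X i + D i := by
  have hy : ∀ i, X i + D i ∈ F (σ := σ) 1 := fun i =>
    (F 1).add_mem (X_mem_F i) (F_mono (by omega) (hD i))
  let φ : A σ →ₐ[ZMod 2] A σ := substAlgHom (hasSubst_of_F hy)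
  have hφX : ∀ i, φ (X i) = X i + D i := fun i => substAlgHom_X _ i
  have hdep : Dep j φ := by
    apply dep_of_X φ (fun t a ha => subst_mem_F hy ha)
    intro i
    rw [hφX]
    simpa using hD i
  have hbij := bijective_of_dep φ (hdep.mono hj)
  refine ⟨AlgEquiv.ofBijective φ hbij, ⟨hdep.mono hj, hdep⟩, hφX⟩

theorem hom_ext_of_F [Finite σ] {τ : Type} (φ ψ : A σ →ₐ[ZMod 2] A τ)
    (hφ : ∀ t, ∀ a ∈ F t, φ a ∈ F t) (hψ : ∀ t, ∀ a ∈ F t, ψ a ∈ F t)
    (h : ∀ i, φ (X i) = ψ (X i)) : φ = ψ := by
  have hmon : ∀ e : σ →₀ ℕ, φ (monomial e 1) = ψ (monomial e 1) := by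
    intro e
    induction e using Finsupp.induction_linear with
    | zero =>
      rw [show (monomial (0 : σ →₀ ℕ) (1 : ZMod 2) : A σ) = 1 from rfl, map_one, map_one]
    | add e e' h h' =>
      have : (monomial (e + e') (1 : ZMod 2) : A σ) = monomial e 1 * monomial e' 1 := by
        rw [monomial_mul_monomial, one_mul]
      rw [this, map_mul, map_mul, h, h']
    | single i n =>
      rw [show (monomial (Finsupp.single i n) (1 : ZMod 2) : A σ) = X i ^ n by
        rw [X_pow_eq], map_pow, map_pow, h]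
  ext1 a
  rw [← sub_eq_zero]
  apply eq_zero_of_F
  intro t
  refine F_induction (t := 0) (T := t) (P := fun a => φ a - ψ a ∈ F t) ?_ ?_ ?_ (F_zero a)
  · intro a b h1 h2
    have e : φ (a + b) - ψ (a + b) = (φ a - ψ a) + (φ b - ψ b) := by
      rw [map_add, map_add]; ring
    rw [e]
    exact (F _).add_mem h1 h2
  · intro e _
    rw [hmon, sub_self]
    exact (F _).zero_mem
  · intro a ha
    exact (F _).sub_mem (hφ _ _ ha) (hψ _ _ ha)

theorem aut_ext [Finite σ] {g h : Γ σ} (hg : g ∈ N σ 1) (hh : h ∈ N σ 1)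
    (H : ∀ i, g (X i) = h (X i)) : g = h := by
  have := hom_ext_of_F (g : A σ →ₐ[ZMod 2] A σ) (h : A σ →ₐ[ZMod 2] A σ)
    (fun _ _ ha => pres hg ha) (fun _ _ ha => pres hh ha) H
  ext1 a
  exact DFunLike.congr_fun this a

theorem mem_N_of_X [Finite σ] {g : Γ σ} (hg : g ∈ N σ 1) {j : ℕ}
    (h : ∀ i, g (X i) - X i ∈ F (j + 1)) : g ∈ N σ j :=
  ⟨hg.1, dep_of_X (g : A σ →ₐ[ZMod 2] A σ) (fun t a ha => pres hg ha) j h⟩

theorem eq_one_of_N [Finite σ] {g : Γ σ} (h : ∀ j, g ∈ N σ j) : g = 1 := by
  ext1 a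
  rw [AlgEquiv.one_apply, ← sub_eq_zero]
  apply eq_zero_of_F
  intro t
  have := (h t).2 0 a (F_zero a)
  simpa using this

/-- completeness of the automorphism group -/
theorem complete_aut (s : ℕ → Γ σ) (h1 : ∀ n, s n ∈ N σ 1)
    (h : ∀ n, s (n + 1) * (s n)⁻¹ ∈ N σ n) : ∃ g ∈ N σ 1, ∀ n, g * (s n)⁻¹ ∈ N σ n := by
  have hc : ∀ t, ∀ a ∈ F t, ∀ n, s (n + 1) a - s n a ∈ F (t + n) := by
    intro t a ha n
    have := (h n).2 t (s n a) (pres (h1 n) ha)
    rwa [AlgEquiv.mul_apply, inv_apply] at this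
  have hc' : ∀ t, ∀ a ∈ F t, ∀ n k, s (n + k) a - s n a ∈ F (t + n) := by
    intro t a ha n k
    induction k with
    | zero => simp
    | succ k ih =>
      have e : s (n + (k + 1)) a - s n a = (s (n + k + 1) a - s (n + k) a) +
        (s (n + k) a - s n a) := by
        rw [← add_assoc]; ring
      rw [e]
      exact (F _).add_mem (F_mono (by omega) (hc t a ha (n + k))) ih
  choose L hL using fun a => complete (fun n => s n a)
    (fun n => F_mono (by omega) (hc 0 a (F_zero a) n))
  have huniq : ∀ a b, (∀ n, b - s n a ∈ F n) → L a = b := by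
    intro a b hb
    rw [← sub_eq_zero]
    apply eq_zero_of_F
    intro t
    have := (F t).sub_mem (hL a t) (hb t)
    simpa using this
  have hLt : ∀ t, ∀ a ∈ F t, ∀ n, L a - s n a ∈ F (t + n) := by
    intro t a ha n
    have e : L a - s n a = (L a - s (t + n) a) + (s (t + n) a - s n a) := by ring
    rw [e]
    refine (F _).add_mem (hL a (t + n)) ?_
    rw [add_comm t n]
    have := hc' t a ha n t
    rwa [add_comm t n] at this
  let φ : A σ →ₐ[ZMod 2] A σ := AlgHom.ofLinearMap
    { toFun := L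
      map_add' := fun a b => huniq _ _ (fun n => by
        have e : L a + L b - s n (a + b) = (L a - s n a) + (L b - s n b) := by
          rw [map_add]; ring
        rw [e]
        exact (F _).add_mem (hL a n) (hL b n))
      map_smul' := fun c a => huniq _ _ (fun n => by
        have e : (RingHom.id (ZMod 2)) c • L a - s n (c • a) = c • (L a - s n a) := by
          rw [map_smul, smul_sub]; rfl
        rw [e]
        exact Submodule.smul_of_tower_mem (F n) c (hL a n)) }
    (huniq _ _ (fun n => by simp))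
    (fun a b => huniq _ _ (fun n => by
        have e : L a * L b - s n (a * b) = (L a - s n a) * L b + s n a * (L b - s n b) := by
          rw [map_mul]; ring
        change L a * L b - s n (a * b) ∈ F n
        rw [e]
        exact (F _).add_mem (Ideal.mul_mem_right _ _ (hL a n)) (Ideal.mul_mem_left _ _ (hL b n))))
  have hφ : ∀ a, φ a = L a := fun a => rfl
  have hdep : Dep 1 φ := by
    intro t a ha
    rw [hφ]
    have e : L a - a = (L a - s 1 a) + (s 1 a - a) := by ring
    rw [e]
    exact (F _).add_mem (hLt t a ha 1) ((h1 1).1 t a ha)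
  refine ⟨AlgEquiv.ofBijective φ (bijective_of_dep φ hdep), ⟨hdep, hdep⟩, ?_⟩
  intro n
  have hmem1 : AlgEquiv.ofBijective φ (bijective_of_dep φ hdep) * (s n)⁻¹ ∈ N σ 1 :=
    (N σ 1).mul_mem ⟨hdep, hdep⟩ ((N σ 1).inv_mem (h1 n))
  refine ⟨hmem1.1, ?_⟩
  intro t a ha
  have e : (AlgEquiv.ofBijective φ (bijective_of_dep φ hdep) * (s n)⁻¹) a - a =
      L ((s n)⁻¹ a) - s n ((s n)⁻¹ a) := by
    rw [AlgEquiv.mul_apply, apply_inv]; rfl
  rw [e]
  exact hLt t _ (pres ((N σ 1).inv_mem (h1 n)) ha) n

end Pool.Agent.K3h96.JI
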