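import Pool.Agent.K3h96.JI.Defs

/-!
# Self-similar actions from virtual endomorphisms
-/

namespace Pool.Agent.K3h96.JI

variable {G : Type} [Group G] (H : Subgroup G) (φ : H →* G)

theorem sec_mem (g : G) (x : G ⧸ H) : (g • x).out⁻¹ * (g * x.out) ∈ H := by
  rw [← QuotientGroup.eq, QuotientGroup.out_eq']
  conv_lhs => rw [← QuotientGroup.out_eq' x]
  rfl

/-- the section of `g` at the letter `x` -/
noncomputable def sec (g : G) (x : G ⧸ H) : G := φ ⟨(g • x).out⁻¹ * (g * x.out), sec_mem H g x⟩

theorem sec_one (x : G ⧸ H) : sec H φ 1 x = 1 := by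
  unfold sec
  rw [← map_one φ]
  congr 1
  apply Subtype.ext
  simp

theorem sec_mul (g h : G) (x : G ⧸ H) : sec H φ (g * h) x = sec H φ g (h • x) * sec H φ h x := by
  unfold sec
  rw [← map_mul]
  congr 1
  apply Subtype.ext
  simp only [Subgroup.coe_mul, mul_smul]
  group

/-- the recursive action on words -/
noncomputable def act : List (G ⧸ H) → G → List (G ⧸ H)
  | [], _ => []
  | x :: w, g => (g • x) :: act w (sec H φ g x)

theorem act_one (w : List (G ⧸ H)) : act H φ w 1 = w := by
  induction w with
  | nil => rfl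
  | cons x w ih => rw [act, sec_one, ih, one_smul]

theorem act_mul (w : List (G ⧸ H)) : ∀ g h : G, act H φ w (g * h) = act H φ (act H φ w h) g := by
  induction w with
  | nil => intro g h; rfl
  | cons x w ih =>
    intro g h
    rw [act, act, act, sec_mul, ih, mul_smul]

/-- the self-similar action attached to a virtual endomorphism -/
noncomputable abbrev selfSimilarAction : MulAction G (List (G ⧸ H)) where
  smul g w := act H φ w g
  one_smul w := act_one H φ w
  mul_smul g h w := act_mul H φ w g h

theorem selfSimilar_of_virtual [H.FiniteIndex] (hH : H ≠ ⊤)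
    (hcore : ∀ K : Subgroup G, K.Normal → K ≤ H →
      (∀ k (hk : k ∈ H), k ∈ K → φ ⟨k, hk⟩ ∈ K) → K = ⊥) :
    AdmitsSelfSimilarAction G := by
  classical
  let _inst := selfSimilarAction H φ
  have hfin : Finite (G ⧸ H) := inferInstance
  let _fin : Fintype (G ⧸ H) := Fintype.ofFinite _
  have hsmul : ∀ (g : G) (w : List (G ⧸ H)), g • w = act H φ w g := fun _ _ => rfl
  refine ⟨G ⧸ H, inferInstance, inferInstance, ?_, ?_, ?_⟩
  · rw [← Nat.card_eq_fintype_card]
    have h0 : H.index ≠ 0 := Subgroup.FiniteIndex.index_ne_zero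
    have h1 : H.index ≠ 1 := fun h => hH (Subgroup.index_eq_one.mp h)
    have : H.index = Nat.card (G ⧸ H) := rfl
    omega
  · let K : Subgroup G := (MulAction.toPermHom G (List (G ⧸ H))).ker
    have hK : ∀ g : G, g ∈ K ↔ ∀ w : List (G ⧸ H), act H φ w g = w := by
      intro g
      rw [MonoidHom.mem_ker]
      constructor
      · intro h w
        have := congrArg (fun p : Equiv.Perm (List (G ⧸ H)) => p w) h
        exact this
      · intro h
        ext1 w
        exact h w
    have hKn : K.Normal := inferInstance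
    have hx1 : ∀ g : G, g ∈ K → ∀ x : G ⧸ H, g • x = x := by
      intro g hg x
      have := (hK g).mp hg [x]
      rw [act] at this
      exact (List.cons.inj this).1
    have hsec : ∀ g : G, g ∈ K → ∀ x : G ⧸ H, sec H φ g x ∈ K := by
      intro g hg x
      rw [hK]
      intro w
      have := (hK g).mp hg (x :: w)
      rw [act] at this
      exact (List.cons.inj this).2
    have hKH : K ≤ H := by
      intro g hg
      have h1 := hx1 g hg ((1 : G) : G ⧸ H)
      have h2 : ((g * 1 : G) : G ⧸ H) = ((1 : G) : G ⧸ H) := h1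
      rw [mul_one, eq_comm, QuotientGroup.eq] at h2
      simpa using h2
    have hKφ : ∀ k (hk : k ∈ H), k ∈ K → φ ⟨k, hk⟩ ∈ K := by
      intro k hk hkK
      set x : G ⧸ H := ((1 : G) : G ⧸ H) with hx
      have hr : x.out ∈ H := by
        have h1 : ((1 : G) : G ⧸ H) = ((x.out : G) : G ⧸ H) := by
          rw [QuotientGroup.out_eq']
        rw [QuotientGroup.eq] at h1
        simpa using h1
      have h2 := hsec k hkK x
      have h3 : sec H φ k x = (φ ⟨x.out, hr⟩)⁻¹ * φ ⟨k, hk⟩ * φ ⟨x.out, hr⟩ := by
        unfold sec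
        rw [← map_inv, ← map_mul, ← map_mul]
        congr 1
        apply Subtype.ext
        simp only [Subgroup.coe_mul, Subgroup.coe_inv, hx1 k hkK x]
        group
      have h4 : φ ⟨k, hk⟩ = φ ⟨x.out, hr⟩ * sec H φ k x * (φ ⟨x.out, hr⟩)⁻¹ := by
        rw [h3]; group
      rw [h4]
      exact hKn.conj_mem _ h2 _
    have hbot := hcore K hKn hKH hKφ
    constructor
    intro g h hgh
    have : h⁻¹ * g ∈ K := by
      rw [hK]
      intro w
      rw [← hsmul, mul_smul, hgh w, inv_smul_smul]
    rw [hbot, Subgroup.mem_bot] at this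
    exact (inv_mul_eq_one.mp this).symm
  · intro g x
    exact ⟨g • x, sec H φ g x, fun w => rfl⟩

end Pool.Agent.K3h96.JI
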