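import Pool.Agent.K3h96.JI.HJI
import Pool.Agent.K3h96.JI.SelfSim

/-!
# The blow-up virtual endomorphism
-/

namespace Pool.Agent.K3h96.JI

open MvPowerSeries

variable {σ : Type} [Fintype σ] [DecidableEq σ] (y : σ)

/-- the components of the blow-up map -/
noncomputable def bl (i : σ) : A σ := if i = y then X y else X i * X y

omit [Fintype σ] in
theorem bl_mem (i : σ) : bl y i ∈ F (σ := σ) 1 := by
  unfold bl
  split_ifs
  · exact X_mem_F y
  · exact mul_mem_F' (X_mem_F i) (X_mem_F y) (by omega)

/-- the blow-up map `x_i ↦ x_i x_y`, `x_y ↦ x_y` -/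
noncomputable def β : A σ →ₐ[ZMod 2] A σ := substAlgHom (hasSubst_of_F (bl_mem y))

theorem β_mem {t : ℕ} {a : A σ} (ha : a ∈ F t) : β y a ∈ F t := subst_mem_F (bl_mem y) ha

theorem β_X (i : σ) : β y (X i) = bl y i := substAlgHom_X _ i

theorem β_y : β y (X y) = X y := by rw [β_X]; simp [bl]

theorem β_ne {i : σ} (hi : i ≠ y) : β y (X i) = X i * X y := by rw [β_X]; simp [bl, hi]

theorem dvd_β_monomial (e : σ →₀ ℕ) :
    (X y : A σ) ^ (Finsupp.degree e) ∣ β y (monomial e (1 : ZMod 2)) := by
  induction e using Finsupp.induction_linear with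
  | zero => simp
  | add e e' h h' =>
    have : (monomial (e + e') (1 : ZMod 2) : A σ) = monomial e 1 * monomial e' 1 := by
      rw [monomial_mul_monomial, one_mul]
    rw [this, map_mul, map_add, pow_add]
    exact mul_dvd_mul h h'
  | single i n =>
    rw [show (monomial (Finsupp.single i n) (1 : ZMod 2) : A σ) = X i ^ n by
      rw [X_pow_eq], map_pow, Finsupp.degree_single]
    apply pow_dvd_pow_of_dvd
    rw [β_X]
    unfold bl
    split_ifs
    · exact dvd_refl _
    · exact dvd_mul_left _ _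

theorem sq_dvd_β {a : A σ} (ha : a ∈ F 2) : (X y : A σ) ^ 2 ∣ β y a := by
  rw [X_pow_dvd_iff]
  intro m hm
  refine F_induction (t := 2) (T := Finsupp.degree m + 1) (P := fun a => coeff m (β y a) = 0)
    ?_ ?_ ?_ ha
  · intro a b h1 h2
    rw [map_add, map_add, h1, h2, add_zero]
  · intro e he
    exact X_pow_dvd_iff.mp (dvd_trans (pow_dvd_pow _ he) (dvd_β_monomial y e)) m hm
  · intro a ha
    exact mem_F'.mp (β_mem y ha) m (Nat.lt_succ_self _)

theorem coeff_β {a : A σ} (ha : a ∈ F 2) :
    coeff (Finsupp.single y 2) (β y a) = coeff (Finsupp.single y 2) a := by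
  refine F_induction (t := 2) (T := 3)
    (P := fun a => coeff (Finsupp.single y 2) (β y a) = coeff (Finsupp.single y 2) a)
    ?_ ?_ ?_ ha
  · intro a b h1 h2
    rw [map_add, map_add, map_add, h1, h2]
  · intro e he
    by_cases h : ∃ i, i ≠ y ∧ e i ≠ 0
    · obtain ⟨i, hi, hei⟩ := h
      have hle : Finsupp.single i 1 ≤ e := by
        rw [Finsupp.single_le_iff]; omega
      have hsplit : (monomial e (1 : ZMod 2) : A σ) =
          X i * monomial (e - Finsupp.single i 1) 1 := by
        rw [show (X i : A σ) = monomial (Finsupp.single i 1) 1 from rfl, monomial_mul_monomial,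
          add_tsub_cancel_of_le hle, one_mul]
      have hdeg : Finsupp.degree (e - Finsupp.single i 1) + 1 = Finsupp.degree e := by
        have := congrArg Finsupp.degree (tsub_add_cancel_of_le hle)
        rwa [map_add, Finsupp.degree_single] at this
      have h1 : β y (monomial e (1 : ZMod 2) : A σ) ∈ F 3 := by
        rw [hsplit, map_mul, β_ne y hi]
        exact mul_mem_F' (mul_mem_F (X_mem_F i) (X_mem_F y))
          (β_mem y (monomial_mem_F _ 1 (show 1 ≤ _ by omega))) (by omega)
      rw [mem_F'.mp h1 _ (by simp), coeff_monomial, if_neg]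
      intro h2
      apply hei
      rw [← h2, Finsupp.single_eq_of_ne hi]
    · push Not at h
      have he' : e = Finsupp.single y (e y) := by
        ext i
        by_cases hi : i = y
        · subst hi; simp
        · rw [h i hi, Finsupp.single_eq_of_ne hi]
      rw [he', show (monomial (Finsupp.single y (e y)) (1 : ZMod 2) : A σ) = X y ^ (e y) by
        rw [X_pow_eq], map_pow, β_y]
  · intro a ha
    rw [mem_F'.mp (β_mem y ha) _ (by simp), mem_F'.mp ha _ (by simp)]

/-- the coefficient of `x_y²` in `g(x_i)` -/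
noncomputable def cf (i : σ) (g : J σ) : ZMod 2 := coeff (Finsupp.single y 2) ((g : Γ σ) (X i))

omit [Fintype σ] [DecidableEq σ] in
theorem disp_mem (g : J σ) (i : σ) : (g : Γ σ) (X i) - X i ∈ F (σ := σ) 2 := g.2.1 1 _ (X_mem_F i)

omit [Fintype σ] in
theorem cf_eq (i : σ) (g : J σ) :
    cf y i g = coeff (Finsupp.single y 2) ((g : Γ σ) (X i) - X i) := by
  rw [map_sub, coeff_X, if_neg, sub_zero]
  · rfl
  · intro h
    have := congrArg Finsupp.degree h
    simp at this

omit [Fintype σ] in
theorem cf_mul (i : σ) (g h : J σ) : cf y i (g * h) = cf y i g + cf y i h := by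
  rw [cf_eq, cf_eq, cf_eq, ← map_add]
  have e : ((g * h : J σ) : Γ σ) (X i) - X i =
      (((g : Γ σ) (X i) - X i) + ((h : Γ σ) (X i) - X i)) +
      ((g : Γ σ) ((h : Γ σ) (X i) - X i) - ((h : Γ σ) (X i) - X i)) := by
    rw [Subgroup.coe_mul, AlgEquiv.mul_apply, map_sub]
    ring
  rw [e, map_add (coeff _) (_ + _), mem_F'.mp (g.2.1 2 _ (disp_mem h i)) _ (by simp), add_zero]

omit [Fintype σ] in
theorem cf_one (i : σ) : cf y i (1 : J σ) = 0 := by
  rw [cf_eq]; simp

/-- the domain of the virtual endomorphism -/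
noncomputable def HB : Subgroup (J σ) where
  carrier := {g | ∀ i, i ≠ y → cf y i g = 0}
  one_mem' := fun i _ => cf_one y i
  mul_mem' := fun {g h} hg hh i hi => by rw [cf_mul, hg i hi, hh i hi, add_zero]
  inv_mem' := fun {g} hg i hi => by
    have := cf_mul y i g g⁻¹
    rw [mul_inv_cancel, cf_one, hg i hi, zero_add] at this
    exact this.symm

theorem mem_HB {g : J σ} : g ∈ HB y ↔ ∀ i, i ≠ y → cf y i g = 0 := Iff.rfl

theorem HB_finiteIndex : (HB y : Subgroup (J σ)).FiniteIndex := by
  apply finiteIndex_of_le' (m := 2)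
  intro g hg
  rw [mem_HB]
  intro i _
  rw [cf_eq]
  exact mem_F'.mp (hg.2 1 _ (X_mem_F i)) _ (by simp)

theorem exists_lift {g : J σ} (hg : g ∈ HB y) :
    ∃ ψ : J σ, ∀ a, (ψ : Γ σ) (β y a) = β y ((g : Γ σ) a) := by
  choose q hq using fun i => sq_dvd_β y (disp_mem g i)
  have hq0 : ∀ i, i ≠ y → q i ∈ F (σ := σ) 1 := by
    intro i hi
    rw [mem_F']
    intro e he
    have he0 : e = 0 := by
      rw [← Finsupp.degree_eq_zero_iff]; omega
    subst he0
    have h1 := mem_HB y |>.mp hg i hi
    rw [cf_eq, ← coeff_β y (disp_mem g i), hq, X_pow_eq] at h1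
    have h2 := coeff_add_monomial_mul (R := ZMod 2) (Finsupp.single y 2) 0 (q i) 1
    rw [add_zero, one_mul] at h2
    rw [← h2]
    exact h1
  set v : A σ := 1 + X y * q y with hv
  have hv1 : X y * q y ∈ F (σ := σ) 1 := Ideal.mul_mem_right _ _ (X_mem_F y)
  have hvc : constantCoeff v ≠ 0 := by
    have : constantCoeff (X y * q y) = (0 : ZMod 2) := by simp
    rw [hv, map_add, this, map_one, add_zero]
    exact one_ne_zero
  have hvinv : v * v⁻¹ = 1 := MvPowerSeries.mul_inv_cancel v hvc
  obtain ⟨ψ, hψ, hψX⟩ := exists_aut (σ := σ) 1 le_rfl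
    (fun i => if i = y then X y ^ 2 * q y else (X i + X y * q i) * v⁻¹ - X i) (by
      intro i
      split_ifs with hi
      · exact Ideal.mul_mem_right _ _ (X_pow_mem_F y 2)
      · have e : (X i + X y * q i) * v⁻¹ - X i = v⁻¹ * (X y * q i - X i * (X y * q y)) := by
          have : X i = X i * (v * v⁻¹) := by rw [hvinv, mul_one]
          rw [hv] at this
          linear_combination (-1 : A σ) * this
        rw [e]
        exact Ideal.mul_mem_left _ _ ((F _).sub_mem (mul_mem_F (X_mem_F y) (hq0 i hi))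
          (mul_mem_F (X_mem_F i) hv1)))
  refine ⟨⟨ψ, hψ⟩, ?_⟩
  have hψy : ψ (X y) = X y * v := by
    rw [hψX, if_pos rfl, hv]; ring
  have := hom_ext_of_F (((ψ : Γ σ) : A σ →ₐ[ZMod 2] A σ).comp (β y))
    ((β y).comp ((g : Γ σ) : A σ →ₐ[ZMod 2] A σ)) (fun _ _ ha => pres hψ (β_mem y ha))
    (fun _ _ ha => β_mem y (pres g.2 ha)) (by
      intro i
      change ψ (β y (X i)) = β y ((g : Γ σ) (X i))
      have e : (g : Γ σ) (X i) = X i + ((g : Γ σ) (X i) - X i) := by ring
      rw [e, map_add (β y), hq]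
      by_cases hi : i = y
      · subst hi
        rw [β_y, hψy, hv]; ring
      · rw [β_ne y hi, map_mul, hψy, hψX, if_neg hi]
        linear_combination (X i + X y * q i) * X y * hvinv)
  intro a
  exact DFunLike.congr_fun this a

theorem lift_unique {ψ ψ' : J σ} (h : ∀ i, (ψ : Γ σ) (β y (X i)) = (ψ' : Γ σ) (β y (X i))) :
    ψ = ψ' := by
  apply Subtype.ext
  apply aut_ext ψ.2 ψ'.2
  have hy : (ψ : Γ σ) (X y) = (ψ' : Γ σ) (X y) := by
    have := h y
    rwa [β_y] at this
  intro i
  by_cases hi : i = y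
  · rw [hi]; exact hy
  · have h1 := h i
    rw [β_ne y hi, map_mul, map_mul, ← hy] at h1
    apply mul_right_cancel₀ _ h1
    intro h0
    have h2 : (X y : A σ) = 0 := (map_eq_zero_iff _ (ψ : Γ σ).injective).mp h0
    have h3 := congrArg (coeff (Finsupp.single y 1)) h2
    rw [X, coeff_monomial_same, map_zero] at h3
    exact one_ne_zero h3

/-- the virtual endomorphism -/
noncomputable def φB : HB y →* J σ where
  toFun g := Classical.choose (exists_lift y g.2)
  map_one' := by
    apply lift_unique y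
    intro i
    rw [Classical.choose_spec (exists_lift y (1 : HB y).2)]
    simp
  map_mul' g h := by
    apply lift_unique y
    intro i
    rw [Classical.choose_spec (exists_lift y (g * h).2)]
    have h1 := Classical.choose_spec (exists_lift y h.2) (X i)
    have h2 := Classical.choose_spec (exists_lift y g.2) (((h : J σ) : Γ σ) (X i))
    rw [← h1] at h2
    exact h2.symm

theorem φB_spec (g : HB y) (a : A σ) :
    (φB y g : Γ σ) (β y a) = β y (((g : J σ) : Γ σ) a) :=
  Classical.choose_spec (exists_lift y g.2) a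

theorem exists_T {x : σ} (l : ℕ) (hl : 2 ≤ l) :
    ∃ T : J σ, (T : Γ σ) ∈ N σ (l - 1) ∧ (T : Γ σ) (X x) = X x + X y ^ l ∧
      ∀ i, i ≠ x → (T : Γ σ) (X i) = X i := by
  obtain ⟨g, hg, hX⟩ := exists_aut (σ := σ) (l - 1) (by omega)
    (fun i => if i = x then X y ^ l else 0) (by
      intro i
      split_ifs
      · exact F_mono (by omega) (X_pow_mem_F y l)
      · exact (F _).zero_mem)
  refine ⟨⟨g, N_one hg⟩, hg, ?_, ?_⟩
  · change g (X x) = _
    rw [hX, if_pos rfl]
  · intro i hi
    change g (X i) = _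
    rw [hX, if_neg hi, add_zero]

theorem T_false {x : σ} (hx : x ≠ y) (K : Subgroup (J σ)) (hKH : K ≤ HB y)
    (hK : ∀ k (hk : k ∈ HB y), k ∈ K → φB y ⟨k, hk⟩ ∈ K) (l : ℕ) :
    ∀ T : J σ, T ∈ K → (T : Γ σ) (X x) = X x + X y ^ (l + 2) →
      (∀ i, i ≠ x → (T : Γ σ) (X i) = X i) → False := by
  induction l with
  | zero =>
    intro T hT h1 h2
    have h3 := hKH hT x hx
    unfold cf at h3
    rw [h1, zero_add, map_add, coeff_X, if_neg, X_pow_eq, coeff_monomial_same, zero_add] at h3
    · exact one_ne_zero h3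
    · intro h
      have := congrArg Finsupp.degree h
      simp at this
  | succ l ih =>
    intro T hT h1 h2
    obtain ⟨T', _, h3, h4⟩ := exists_T (σ := σ) y (x := x) (l + 2) (by omega)
    refine ih T' ?_ h3 h4
    have : φB y ⟨T, hKH hT⟩ = T' := by
      apply lift_unique y
      intro i
      rw [φB_spec]
      change β y ((T : Γ σ) (X i)) = _
      by_cases hix : i = x
      · subst hix
        rw [h1, β_ne y hx, map_add, map_pow, β_y, β_ne y hx, map_mul, h3, h4 y (Ne.symm hx)]
        ring
      · rw [h2 i hix]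
        by_cases hiy : i = y
        · subst hiy
          rw [β_y, h4 _ hix]
        · rw [β_ne y hiy, map_mul, h4 i hix, h4 y (Ne.symm hx)]
    rw [← this]
    exact hK T (hKH hT) hT

theorem J_selfSimilar [Nontrivial σ] : AdmitsSelfSimilarAction (J σ) := by
  obtain ⟨y⟩ := (inferInstance : Nonempty σ)
  obtain ⟨x, hx⟩ := exists_ne y
  have := HB_finiteIndex y
  apply selfSimilar_of_virtual (HB y) (φB y)
  · intro htop
    obtain ⟨T, _, h1, h2⟩ := exists_T (σ := σ) y (x := x) 2 le_rfl
    have hT : T ∈ HB y := by rw [htop]; trivial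
    have h3 := hT x hx
    unfold cf at h3
    rw [h1, map_add, coeff_X, if_neg, X_pow_eq, coeff_monomial_same, zero_add] at h3
    · exact one_ne_zero h3
    · intro h
      have := congrArg Finsupp.degree h
      simp at this
  · intro K hKn hKH hK
    by_contra hne
    obtain ⟨m, hm, hm'⟩ := J_key hne (n₀ := 1) (fun g _ l hl => hKn.conj_mem l hl g)
    obtain ⟨T, hT, h1, h2⟩ := exists_T (σ := σ) y (x := x) (m + 2) (by omega)
    exact T_false y hx K hKH hK m T (hm' T (N_mono (by omega) hT)) h1 h2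

end Pool.Agent.K3h96.JI
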