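import Mathlib

/-!
# Definitions: just infinite groups, self-similar actions, linearity
-/

namespace Pool.Agent.K3h96.JI

/-- `G` is just infinite: infinite, and every nontrivial normal subgroup has finite index. -/
def IsJustInfinite (G : Type*) [Group G] : Prop :=
  Infinite G ∧ ∀ K : Subgroup G, K.Normal → K ≠ ⊥ → K.FiniteIndex

/-- `G` is hereditarily just infinite: every subgroup of finite index (including `G` itself) is
just infinite. -/
def IsHereditarilyJustInfinite (G : Type*) [Group G] : Prop :=
  ∀ H : Subgroup G, H.FiniteIndex → IsJustInfinite H

/-- `G` is residually finite: the intersection of all normal subgroups of finite index is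
trivial. -/
def IsResiduallyFinite (G : Type*) [Group G] : Prop :=
  ∀ g : G, (∀ K : Subgroup G, K.Normal → K.FiniteIndex → g ∈ K) → g = 1

/-- `G` admits a self-similar action on a rooted tree: a faithful action on the set of finite
words over some finite alphabet `X` with at least two letters such that for all `g` and `x`
there are `y` and `h` with `g (x w) = y (h w)` for all words `w`. -/
def AdmitsSelfSimilarAction (G : Type*) [Group G] : Prop :=
  ∃ (X : Type) (_ : Fintype X) (_ : MulAction G (List X)),
    2 ≤ Fintype.card X ∧ FaithfulSMul G (List X) ∧
      ∀ (g : G) (x : X), ∃ (y : X) (h : G), ∀ w : List X, g • (x :: w) = y :: (h • w)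

/-- `G` is linear over a field in the universe `u`. -/
def IsLinear.{u} (G : Type*) [Group G] : Prop :=
  ∃ (K : Type u) (_ : Field K) (n : ℕ) (f : G →* GL (Fin n) K), 1 ≤ n ∧ Function.Injective f

end Pool.Agent.K3h96.JI
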