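import Pool.Agent.K3h96.JI.Aut

/-!
# Continuous derivations (formal vector fields)
-/

namespace Pool.Agent.K3h96.JI

open MvPowerSeries

variable {σ : Type}

/-- Derivations of the power series ring. -/
abbrev Der (σ : Type) := Derivation (ZMod 2) (A σ) (A σ)

/-- continuity of a derivation -/
def IsVF (D : Der σ) : Prop := ∀ t, ∀ a ∈ F t, D a ∈ F (t - 1)

/-- `D` raises the order by at least `j`. -/
def Rs (j : ℕ) (D : Der σ) : Prop := ∀ t, ∀ a ∈ F t, D a ∈ F (t + j)

theorem der_zero [Finite σ] (D : Der σ) (c : ℕ) (h : ∀ t, ∀ a ∈ F t, D a ∈ F (t - c))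
    (hX : ∀ i, D (X i) = 0) : D = 0 := by
  have hmon : ∀ e : σ →₀ ℕ, D (monomial e 1) = 0 := by
    intro e
    induction e using Finsupp.induction_linear with
    | zero =>
      rw [show (monomial (0 : σ →₀ ℕ) (1 : ZMod 2) : A σ) = 1 from rfl, D.map_one_eq_zero]
    | add e e' h h' =>
      have : (monomial (e + e') (1 : ZMod 2) : A σ) = monomial e 1 * monomial e' 1 := by
        rw [monomial_mul_monomial, one_mul]
      rw [this, D.leibniz, h, h', smul_zero, smul_zero, add_zero]
    | single i n =>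
      rw [show (monomial (Finsupp.single i n) (1 : ZMod 2) : A σ) = X i ^ n by
        rw [X_pow_eq], D.leibniz_pow, hX]
      simp
  ext1 a
  rw [Derivation.zero_apply]
  apply eq_zero_of_F
  intro t
  refine F_induction (t := 0) (T := t + c) (P := fun a => D a ∈ F t) ?_ ?_ ?_ (F_zero a)
  · intro a b h1 h2
    rw [map_add]
    exact (F _).add_mem h1 h2
  · intro e _
    rw [hmon]
    exact (F _).zero_mem
  · intro a ha
    exact F_mono (by omega) (h _ _ ha)

theorem pd_isVF (i : σ) : IsVF (pderiv (ZMod 2) i : Der σ) := fun _ _ ha => pderiv_mem_F i ha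

theorem IsVF.add {D E : Der σ} (hD : IsVF D) (hE : IsVF E) : IsVF (D + E) :=
  fun t a ha => (F _).add_mem (hD t a ha) (hE t a ha)

theorem IsVF.neg {D : Der σ} (hD : IsVF D) : IsVF (-D) :=
  fun t a ha => (F _).neg_mem (hD t a ha)

theorem IsVF.sub {D E : Der σ} (hD : IsVF D) (hE : IsVF E) : IsVF (D - E) :=
  fun t a ha => (F _).sub_mem (hD t a ha) (hE t a ha)

theorem IsVF.zero : IsVF (0 : Der σ) := fun _ _ _ => (F _).zero_mem

theorem IsVF.smul {D : Der σ} (b : A σ) (hD : IsVF D) : IsVF (b • D) :=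
  fun t a ha => (F _).mul_mem_left b (hD t a ha)

theorem IsVF.sum {ι : Type*} (s : Finset ι) (D : ι → Der σ) (h : ∀ i ∈ s, IsVF (D i)) :
    IsVF (∑ i ∈ s, D i) := by
  classical
  induction s using Finset.induction_on with
  | empty => simpa using IsVF.zero
  | insert i s hi ih =>
    rw [Finset.sum_insert hi]
    exact (h i (by simp)).add (ih (fun j hj => h j (by simp [hj])))

/-- The vector field with prescribed components. -/
noncomputable def vf [Fintype σ] (v : σ → A σ) : Der σ := ∑ i, v i • (pderiv (ZMod 2) i : Der σ)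

theorem vf_isVF [Fintype σ] (v : σ → A σ) : IsVF (vf v) :=
  IsVF.sum _ _ (fun i _ => (pd_isVF i).smul _)

theorem vf_apply [Fintype σ] (v : σ → A σ) (a : A σ) :
    vf v a = ∑ i, v i * pderiv (ZMod 2) i a := by
  have : ∀ s : Finset σ, (∑ i ∈ s, v i • (pderiv (ZMod 2) i : Der σ)) a =
      ∑ i ∈ s, v i * pderiv (ZMod 2) i a := by
    classical
    intro s
    induction s using Finset.induction_on with
    | empty => simp
    | insert i s hi ih =>
      rw [Finset.sum_insert hi, Finset.sum_insert hi, Derivation.add_apply, ih]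
      rfl
  exact this _

theorem vf_X [Fintype σ] (v : σ → A σ) (i : σ) : vf v (X i) = v i := by
  classical
  rw [vf_apply, Finset.sum_eq_single i]
  · simp
  · intro j _ hj
    rw [pderiv_X_of_ne (Ne.symm hj), mul_zero]
  · intro h; exact absurd (Finset.mem_univ i) h

theorem eq_vf [Fintype σ] (D : Der σ) (c : ℕ) (h : ∀ t, ∀ a ∈ F t, D a ∈ F (t - c)) :
    D = vf (fun i => D (X i)) := by
  rw [← sub_eq_zero]
  apply der_zero _ (max c 1)
  · intro t a ha
    refine (F _).sub_mem (F_mono (by omega) (h t a ha)) (F_mono (by omega) (vf_isVF _ t a ha))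
  · intro i
    rw [Derivation.sub_apply, vf_X, sub_self]

theorem isVF_of_weak [Fintype σ] (D : Der σ) (c : ℕ) (h : ∀ t, ∀ a ∈ F t, D a ∈ F (t - c)) :
    IsVF D := by
  rw [eq_vf D c h]
  exact vf_isVF _

theorem IsVF.ext [Finite σ] {D E : Der σ} (hD : IsVF D) (hE : IsVF E)
    (h : ∀ i, D (X i) = E (X i)) : D = E := by
  rw [← sub_eq_zero]
  exact der_zero _ 1 (hD.sub hE) (fun i => by rw [Derivation.sub_apply, h, sub_self])

theorem IsVF.lie [Fintype σ] {D E : Der σ} (hD : IsVF D) (hE : IsVF E) : IsVF ⁅D, E⁆ := by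
  apply isVF_of_weak _ 2
  intro t a ha
  rw [Derivation.commutator_apply]
  refine (F _).sub_mem (F_mono (by omega) (hD _ _ (hE _ _ ha)))
    (F_mono (by omega) (hE _ _ (hD _ _ ha)))

/-- Conjugate of a derivation by an automorphism. -/
noncomputable def conjD (g : Γ σ) (D : Der σ) : Der σ :=
  Derivation.mk' (g.toLinearMap ∘ₗ (D : A σ →ₗ[ZMod 2] A σ) ∘ₗ (g⁻¹ : Γ σ).toLinearMap) (by
    intro a b
    simp only [LinearMap.comp_apply, AlgEquiv.toLinearMap_apply, Derivation.coeFn_coe, map_mul,
      Derivation.leibniz, smul_eq_mul, map_add, apply_inv])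

theorem conjD_apply (g : Γ σ) (D : Der σ) (a : A σ) : conjD g D a = g (D (g⁻¹ a)) := rfl

theorem conjD_isVF {g : Γ σ} (hg : g ∈ N σ 1) {D : Der σ} (hD : IsVF D) : IsVF (conjD g D) :=
  fun _ _ ha => pres hg (hD _ _ (pres ((N σ 1).inv_mem hg) ha))

theorem conjD_smul (g : Γ σ) (b : A σ) (D : Der σ) : conjD g (b • D) = g b • conjD g D := by
  ext1 a
  rw [Derivation.smul_apply, conjD_apply, conjD_apply, Derivation.smul_apply, smul_eq_mul, map_mul,
    smul_eq_mul]

theorem Rs.mono {i j : ℕ} (h : i ≤ j) {D : Der σ} (hD : Rs j D) : Rs i D :=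
  fun t a ha => F_mono (by omega) (hD t a ha)

theorem Rs.isVF {j : ℕ} {D : Der σ} (hD : Rs j D) : IsVF D :=
  fun t a ha => F_mono (by omega) (hD t a ha)

theorem Rs.add {j : ℕ} {D E : Der σ} (hD : Rs j D) (hE : Rs j E) : Rs j (D + E) :=
  fun t a ha => (F _).add_mem (hD t a ha) (hE t a ha)

theorem Rs.neg {j : ℕ} {D : Der σ} (hD : Rs j D) : Rs j (-D) :=
  fun t a ha => (F _).neg_mem (hD t a ha)

theorem Rs.sub {j : ℕ} {D E : Der σ} (hD : Rs j D) (hE : Rs j E) : Rs j (D - E) :=
  fun t a ha => (F _).sub_mem (hD t a ha) (hE t a ha)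

theorem Rs.zero (j : ℕ) : Rs j (0 : Der σ) := fun _ _ _ => (F _).zero_mem

theorem Rs.lie {i j : ℕ} {D E : Der σ} (hD : Rs i D) (hE : Rs j E) : Rs (i + j) ⁅D, E⁆ := by
  intro t a ha
  rw [Derivation.commutator_apply]
  refine (F _).sub_mem (F_mono (by omega) (hD _ _ (hE _ _ ha)))
    (F_mono (by omega) (hE _ _ (hD _ _ ha)))

theorem rs_of_X [Fintype σ] {D : Der σ} (hD : IsVF D) {j : ℕ} (h : ∀ i, D (X i) ∈ F (j + 1)) :
    Rs j D := by
  intro t a ha
  rw [eq_vf D 1 hD, vf_apply]
  apply Ideal.sum_mem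
  intro i _
  rcases Nat.eq_zero_or_pos t with rfl | ht
  · exact F_mono (by omega) ((F (j + 1)).mul_mem_right _ (h i))
  · exact mul_mem_F' (h i) (pderiv_mem_F i ha) (by omega)

/-- First order Taylor expansion. -/
theorem taylor [Fintype σ] {g : Γ σ} {j : ℕ} (hg : g ∈ N σ j) {D : Der σ}
    (hD : IsVF D) (hX : ∀ i, D (X i) = g (X i) - X i) :
    ∀ t, ∀ a ∈ F t, g a - a - D a ∈ F (t + 2 * j) := by
  have hRs : Rs j D := rs_of_X hD (fun i => by
    rw [hX]
    have := hg.2 1 (X i) (X_mem_F i)
    rwa [add_comm])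
  have hmul : ∀ {s t : ℕ} {a b : A σ}, a ∈ F s → b ∈ F t → g a - a - D a ∈ F (s + 2 * j) →
      g b - b - D b ∈ F (t + 2 * j) → g (a * b) - a * b - D (a * b) ∈ F (s + t + 2 * j) := by
    intro s t a b ha hb h1 h2
    have e : g (a * b) - a * b - D (a * b) = (g a - a) * (g b - b) + a * (g b - b - D b) +
        b * (g a - a - D a) := by
      rw [map_mul, D.leibniz, smul_eq_mul, smul_eq_mul]; ring
    rw [e]
    refine (F _).add_mem ((F _).add_mem ?_ ?_) ?_
    · exact mul_mem_F' (hg.2 _ _ ha) (hg.2 _ _ hb) (by omega)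
    · exact mul_mem_F' ha h2 (by omega)
    · exact mul_mem_F' hb h1 (by omega)
  have hmon : ∀ e : σ →₀ ℕ, g (monomial e 1) - monomial e 1 - D (monomial e 1) ∈
      F (Finsupp.degree e + 2 * j) := by
    intro e
    induction e using Finsupp.induction_linear with
    | zero =>
      rw [show (monomial (0 : σ →₀ ℕ) (1 : ZMod 2) : A σ) = 1 from rfl, map_one,
        D.map_one_eq_zero, sub_self, sub_self]
      exact (F _).zero_mem
    | add e e' h h' =>
      have := hmul (monomial_mem_F e 1 le_rfl) (monomial_mem_F e' 1 le_rfl) h h'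
      rw [monomial_mul_monomial, one_mul] at this
      rwa [map_add]
    | single i n =>
      induction n with
      | zero =>
        rw [Finsupp.single_zero, show (monomial (0 : σ →₀ ℕ) (1 : ZMod 2) : A σ) = 1 from rfl,
          map_one, D.map_one_eq_zero, sub_self, sub_self]
        exact (F _).zero_mem
      | succ n ih =>
        have hX' : g (monomial (Finsupp.single i 1) 1) - monomial (Finsupp.single i 1) 1 -
            D (monomial (Finsupp.single i 1) 1) ∈ F (1 + 2 * j) := by
          have : g (X i) - X i - D (X i) = 0 := by rw [hX, sub_self]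
          change g (X i) - X i - D (X i) ∈ _
          rw [this]
          exact (F _).zero_mem
        have := hmul (monomial_mem_F (Finsupp.single i n) 1 le_rfl)
          (monomial_mem_F (Finsupp.single i 1) 1 (by simp : 1 ≤ _)) ih hX'
        rw [monomial_mul_monomial, one_mul, ← Finsupp.single_add] at this
        simpa using this
  intro t a ha
  refine F_induction (t := t) (T := t + j) (P := fun a => g a - a - D a ∈ F (t + 2 * j))
    ?_ ?_ ?_ ha
  · intro a b h1 h2
    have e : g (a + b) - (a + b) - D (a + b) = (g a - a - D a) + (g b - b - D b) := by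
      rw [map_add, map_add]; ring
    rw [e]
    exact (F _).add_mem h1 h2
  · intro e he
    exact F_mono (by omega) (hmon e)
  · intro a ha
    exact (F _).sub_mem (F_mono (by omega) (hg.2 _ _ ha)) (F_mono (by omega) (hRs _ _ ha))

end Pool.Agent.K3h96.JI
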