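import Mathlib

/-!
# The order filtration on `F₂[[x]]`
-/

namespace Pool.Agent.K3h96.JI

open MvPowerSeries

/-- Power series over the field with two elements. -/
abbrev A (σ : Type) := MvPowerSeries σ (ZMod 2)

variable {σ : Type}

/-- The ideal of power series of order at least `t`. -/
def F (t : ℕ) : Ideal (A σ) where
  carrier := {a | (t : ℕ∞) ≤ a.order}
  add_mem' := by
    intro a b ha hb
    exact le_trans (le_min ha hb) min_order_le_add
  zero_mem' := by simp
  smul_mem' := by
    intro c a ha
    have h := le_order_mul (f := c) (g := a)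
    exact le_trans (le_trans ha (le_add_self)) h

theorem mem_F {t : ℕ} {a : A σ} : a ∈ F t ↔ (t : ℕ∞) ≤ a.order := Iff.rfl

theorem mem_F' {t : ℕ} {a : A σ} :
    a ∈ F t ↔ ∀ e : σ →₀ ℕ, Finsupp.degree e < t → coeff e a = 0 := by
  constructor
  · intro h e he
    apply coeff_of_lt_order
    exact lt_of_lt_of_le (by exact_mod_cast he) h
  · intro h
    exact nat_le_order h

theorem F_zero (a : A σ) : a ∈ F 0 := by simp [mem_F]

theorem F_mono {s t : ℕ} (h : s ≤ t) {a : A σ} (ha : a ∈ F t) : a ∈ F s :=
  le_trans (by exact_mod_cast h) (mem_F.mp ha)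

theorem mul_mem_F {s t : ℕ} {a b : A σ} (ha : a ∈ F s) (hb : b ∈ F t) : a * b ∈ F (s + t) := by
  rw [mem_F] at *
  refine le_trans ?_ le_order_mul
  push_cast
  exact add_le_add ha hb

theorem mul_mem_F' {s t r : ℕ} {a b : A σ} (ha : a ∈ F s) (hb : b ∈ F t) (h : r ≤ s + t) :
    a * b ∈ F r := F_mono h (mul_mem_F ha hb)

theorem pow_mem_F {s : ℕ} {a : A σ} (ha : a ∈ F s) (n : ℕ) : a ^ n ∈ F (n * s) := by
  induction n with
  | zero => exact F_mono (by simp) (F_zero _)
  | succ n ih =>
    rw [pow_succ, Nat.succ_mul]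
    exact mul_mem_F ih ha

theorem monomial_mem_F (e : σ →₀ ℕ) (c : ZMod 2) {t : ℕ} (h : t ≤ Finsupp.degree e) :
    monomial e c ∈ F (σ := σ) t := by
  classical
  rw [mem_F']
  intro e' he'
  rw [coeff_monomial]
  rw [if_neg]
  rintro rfl
  omega

theorem X_mem_F (i : σ) : (X i : A σ) ∈ F 1 := by
  rw [X]
  exact monomial_mem_F _ _ (by simp)

theorem eq_zero_of_F {a : A σ} (h : ∀ t, a ∈ F t) : a = 0 := by
  ext e
  exact mem_F'.mp (h (Finsupp.degree e + 1)) e (Nat.lt_succ_self _)

theorem zmod2 (x : ZMod 2) : x = 0 ∨ x = 1 := by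
  revert x; decide

/-- Induction on `F t`, modulo `F T`. -/
theorem F_induction [Finite σ] {t T : ℕ} {P : A σ → Prop}
    (hadd : ∀ a b, P a → P b → P (a + b))
    (hmon : ∀ e : σ →₀ ℕ, t ≤ Finsupp.degree e → P (monomial e 1))
    (hT : ∀ a ∈ F T, P a) {a : A σ} (ha : a ∈ F t) : P a := by
  classical
  have h0 : P 0 := hT 0 (F T).zero_mem
  have hsplit : a = ((truncTotal T a : MvPolynomial σ (ZMod 2)) : A σ) +
      (a - ((truncTotal T a : MvPolynomial σ (ZMod 2)) : A σ)) := by ring
  rw [hsplit]
  apply hadd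
  · -- polynomial part
    have key : ∀ (c : (σ →₀ ℕ) → ZMod 2) (S : Finset (σ →₀ ℕ)),
        (∀ e ∈ S, t ≤ Finsupp.degree e) → P (∑ e ∈ S, (monomial e (c e) : A σ)) := by
      intro c S
      induction S using Finset.induction_on with
      | empty => intro _; simpa using h0
      | insert e S he ih =>
        intro hS
        rw [Finset.sum_insert he]
        apply hadd
        · rcases zmod2 (c e) with h | h
          · rw [h]; simpa using h0
          · rw [h]; exact hmon e (hS e (by simp))
        · exact ih (fun e' he' => hS e' (by simp [he']))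
    have hp : ((truncTotal T a : MvPolynomial σ (ZMod 2)) : A σ) =
        ∑ e ∈ (truncTotal T a : MvPolynomial σ (ZMod 2)).support,
          (monomial e (MvPolynomial.coeff e (truncTotal T a)) : A σ) := by
      conv_lhs => rw [← MvPolynomial.support_sum_monomial_coeff (truncTotal T a)]
      rw [← MvPolynomial.coeToMvPowerSeries.ringHom_apply, map_sum]
      simp
    rw [hp]
    apply key
    intro e he
    by_contra hlt
    push Not at hlt
    rw [MvPolynomial.mem_support_iff] at he
    apply he
    by_cases hT' : Finsupp.degree e < T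
    · rw [coeff_truncTotal _ hT']
      exact mem_F'.mp ha e hlt
    · exact coeff_truncTotal_eq_zero _ (by omega)
  · apply hT
    rw [mem_F']
    intro e he
    rw [map_sub, MvPolynomial.coeff_coe, coeff_truncTotal _ he, sub_self]

/-- completeness of the power series ring -/
theorem complete (s : ℕ → A σ) (h : ∀ n, s (n + 1) - s n ∈ F n) :
    ∃ a : A σ, ∀ n, a - s n ∈ F n := by
  have h' : ∀ n k, s (n + k) - s n ∈ F n := by
    intro n k
    induction k with
    | zero => simp
    | succ k ih =>
      have := (F n).add_mem (F_mono (by omega : n ≤ n + k) (h (n + k))) ih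
      have e : s (n + k + 1) - s (n + k) + (s (n + k) - s n) = s (n + (k + 1)) - s n := by
        rw [← add_assoc]; ring
      rwa [e] at this
  let L : A σ := fun e => coeff e (s (Finsupp.degree e + 1))
  have hL : ∀ e, coeff e L = coeff e (s (Finsupp.degree e + 1)) := fun e => rfl
  refine ⟨L, fun n => ?_⟩
  rw [mem_F']
  intro e he
  rw [map_sub, hL]
  obtain ⟨k, hk⟩ : ∃ k, n = Finsupp.degree e + 1 + k := ⟨n - (Finsupp.degree e + 1), by omega⟩
  have h1 := mem_F'.mp (h' (Finsupp.degree e + 1) k) e (Nat.lt_succ_self _)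
  rw [← hk, map_sub] at h1
  rw [← neg_sub, h1, neg_zero]

theorem pderiv_mem_F (i : σ) {t : ℕ} {a : A σ} (ha : a ∈ F t) :
    pderiv (ZMod 2) i a ∈ F (t - 1) := by
  rw [mem_F'] at *
  intro e he
  rw [coeff_pderiv, ha _ (by simp; omega), zero_mul]

end Pool.Agent.K3h96.JI
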