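import Pool.Agent.K3h96.JI.Der

/-!
# Producing elements with prescribed leading vector field in a normal subgroup
-/

namespace Pool.Agent.K3h96.JI

open MvPowerSeries

variable {σ : Type}

instance charP_A : CharP (A σ) 2 :=
  charP_of_injective_algebraMap (algebraMap (ZMod 2) (A σ)).injective 2

instance expChar_A : ExpChar (A σ) 2 := ExpChar.prime Nat.prime_two

theorem even_cast_A {n : ℕ} (h : 2 ∣ n) : ((n : ℕ) : A σ) = 0 :=
  (CharP.cast_eq_zero_iff (A σ) 2 n).mpr h

theorem der_pow_even (D : Der σ) (a : A σ) {n : ℕ} (h : 2 ∣ n) : D (a ^ n) = 0 := by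
  rw [D.leibniz_pow, ← Nat.cast_smul_eq_nsmul (A σ), even_cast_A h, zero_smul]

theorem two_dvd_pow {s : ℕ} (h : 1 ≤ s) : 2 ∣ 2 ^ s := dvd_pow_self 2 (by omega)

/-- abbreviation for partial derivatives -/
noncomputable abbrev pd (i : σ) : Der σ := pderiv (ZMod 2) i

theorem pd_pd (i : σ) (a : A σ) : pd i (pd i a) = 0 := by
  ext e
  rw [coeff_pderiv, coeff_pderiv]
  have h : (((e + Finsupp.single i 1 : σ →₀ ℕ) i : ℕ) + 1 : ZMod 2) *
      ((e i : ℕ) + 1 : ZMod 2) = 0 := by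
    have : (e + Finsupp.single i 1 : σ →₀ ℕ) i = e i + 1 := by simp
    rw [this]
    push_cast
    rcases zmod2 ((e i : ℕ) : ZMod 2) with h | h <;> rw [h] <;> decide
  rw [mul_assoc, h, mul_zero, map_zero]

theorem pd_comm (i j : σ) (a : A σ) : pd i (pd j a) = pd j (pd i a) := by
  by_cases hij : i = j
  · subst hij; rfl
  ext e
  rw [coeff_pderiv, coeff_pderiv, coeff_pderiv, coeff_pderiv]
  have h1 : (e + Finsupp.single i 1 : σ →₀ ℕ) j = e j := by simp [Ne.symm hij]
  have h2 : (e + Finsupp.single j 1 : σ →₀ ℕ) i = e i := by simp [hij]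
  rw [h1, h2, add_right_comm e (Finsupp.single i 1) (Finsupp.single j 1)]
  ring

theorem lie_pd_pd (i j : σ) : ⁅pd i, pd j⁆ = (0 : Der σ) := by
  ext1 a
  rw [Derivation.commutator_apply, pd_comm, sub_self, Derivation.zero_apply]

/-- `u = 1 + b z` up to `F K`. -/
def Ap (u : Γ σ) (b : A σ) (z : Der σ) (K : ℕ) : Prop := ∀ a, u a - a - b * z a ∈ F K

theorem Ap.mono {u : Γ σ} {b : A σ} {z : Der σ} {K K' : ℕ} (h : Ap u b z K) (hK : K' ≤ K) :
    Ap u b z K' := fun a => F_mono hK (h a)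

theorem frob_diff {g : Γ σ} (hg : g ∈ N σ 1) (t : σ) {M n : ℕ} (h : 2 ^ M ∣ n) :
    g (X t ^ n) - X t ^ n ∈ F (n + M + 1) := by
  obtain ⟨q, rfl⟩ := h
  rw [mul_comm, pow_mul, map_pow, ← sub_pow_char_pow (p := 2)]
  have h1 : (X t : A σ) ^ q ∈ F q := by
    have := pow_mem_F (X_mem_F t) q
    simpa using this
  have h2 := pow_mem_F (hg.1 _ _ h1) (2 ^ M)
  refine F_mono ?_ h2
  have : M < 2 ^ M := Nat.lt_two_pow_self
  rw [mul_add, mul_one, mul_comm q]
  omega

theorem X_pow_mem_F (t : σ) (n : ℕ) : (X t : A σ) ^ n ∈ F n := by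
  have := pow_mem_F (X_mem_F t) n
  simpa using this

theorem ap_depth [Fintype σ] {u : Γ σ} (hu : u ∈ N σ 1) {b : A σ} {z : Der σ} {n K : ℕ}
    (hb : b ∈ F n) (h : Ap u b z K) (hK : n ≤ K) (hn : 1 ≤ n) : u ∈ N σ (n - 1) := by
  apply mem_N_of_X hu
  intro i
  have e : u (X i) - X i = (u (X i) - X i - b * z (X i)) + b * z (X i) := by ring
  rw [e, Nat.sub_add_cancel hn]
  exact (F _).add_mem (F_mono hK (h _)) (Ideal.mul_mem_right _ _ hb)

theorem ap_comm [Fintype σ] {u h : Γ σ} (hu : u ∈ N σ 1) (hh : h ∈ N σ 1) {b : A σ} {z : Der σ}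
    {n K : ℕ} (hb : b ∈ F n) (hz : IsVF z) (hap : Ap u b z K) (hhb : h b - b ∈ F K)
    (hK : n ≤ K) (hK2 : K + 2 ≤ 2 * n) : Ap (h * u * h⁻¹ * u⁻¹) b (conjD h z - z) K := by
  have hud : u ∈ N σ (n - 1) := ap_depth hu hb hap hK (by omega)
  intro a
  set a' := h⁻¹ (u⁻¹ a) with ha'
  have h1 : h a' = u⁻¹ a := by rw [ha', apply_inv]
  have h2 : u (h a') = a := by rw [h1, apply_inv]
  have hc : (h * u * h⁻¹ * u⁻¹) a = h (u a') := by
    rw [AlgEquiv.mul_apply, AlgEquiv.mul_apply, AlgEquiv.mul_apply]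
  have hd1 : h a' - a ∈ F (n - 1) := by
    rw [h1]
    have := ((N σ (n - 1)).inv_mem hud).2 0 a (F_zero a)
    rwa [zero_add] at this
  have hd2 : a' - h⁻¹ a ∈ F (n - 1) := by
    have e : a' - h⁻¹ a = h⁻¹ (h a' - a) := by rw [map_sub, inv_apply]
    rw [e]
    exact pres ((N σ 1).inv_mem hh) hd1
  have e : (h * u * h⁻¹ * u⁻¹) a - a - b * (conjD h z - z) a =
      h (u a' - a' - b * z a') - (u (h a') - h a' - b * z (h a')) + (h b - b) * h (z a') +
      b * (h (z (a' - h⁻¹ a)) - z (h a' - a)) := by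
    rw [hc, Derivation.sub_apply, conjD_apply, map_sub z, map_sub z, h2]
    simp only [map_sub, map_mul]
    ring
  rw [e]
  refine (F _).add_mem ((F _).add_mem ((F _).sub_mem ?_ ?_) ?_) ?_
  · exact pres hh (hap a')
  · exact hap (h a')
  · exact Ideal.mul_mem_right _ _ hhb
  · refine mul_mem_F' (t := n - 1 - 1) hb ((F _).sub_mem ?_ ?_) (by omega)
    · exact pres hh (hz _ _ hd2)
    · exact hz _ _ hd1

theorem conj_sub [Fintype σ] {h : Γ σ} (hh : h ∈ N σ 1) {b : A σ} {D z : Der σ} {n K : ℕ}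
    (hb : b ∈ F n) (hz : IsVF z) (hD : IsVF D) (hap : Ap h b D K) (hzb : z b = 0)
    (hK : n ≤ K) (hn : 1 ≤ n) (a : A σ) (K' : ℕ) (hK' : K' + 1 ≤ K) (hK2 : K' + 2 ≤ 2 * n) :
    conjD h z a - z a - b * ⁅D, z⁆ a ∈ F K' := by
  have hhd : h ∈ N σ (n - 1) := ap_depth hh hb hap hK hn
  set a' := h⁻¹ a with ha'
  have h1 : h a' = a := by rw [ha', apply_inv]
  have hd : a' - a ∈ F (n - 1) := by
    have := ((N σ (n - 1)).inv_mem hhd).2 0 a (F_zero a)
    rwa [zero_add] at this
  have e : conjD h z a - z a - b * ⁅D, z⁆ a =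
      (h (z a') - z a' - b * D (z a')) - z (h a' - a' - b * D a') + b * ⁅D, z⁆ (a' - a) := by
    rw [conjD_apply, ← ha', map_sub z, map_sub z, h1, map_sub ⁅D, z⁆, Derivation.commutator_apply,
      Derivation.commutator_apply, z.leibniz, hzb, smul_zero, add_zero, smul_eq_mul]
    ring
  rw [e]
  refine (F _).add_mem ((F _).sub_mem ?_ ?_) ?_
  · exact F_mono (by omega) (hap _)
  · exact F_mono (by omega) (hz _ _ (hap _))
  · exact mul_mem_F' hb ((hD.lie hz) _ _ hd) (by omega)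

/-- one-parameter elements -/
theorem exists_ap [Fintype σ] (t : σ) {D : Der σ} (hD : IsVF D) (n : ℕ) (hn : 2 ≤ n) :
    ∃ h ∈ N σ (n - 1), (∀ i, h (X i) = X i + X t ^ n * D (X i)) ∧ Ap h (X t ^ n) D (2 * n - 2) := by
  obtain ⟨h, hh, hX⟩ := exists_aut (σ := σ) (n - 1) (by omega) (fun i => X t ^ n * D (X i))
    (fun i => by
      rw [Nat.sub_add_cancel (by omega : 1 ≤ n)]
      exact Ideal.mul_mem_right _ _ (X_pow_mem_F t n))
  refine ⟨h, hh, hX, ?_⟩
  intro a
  have := taylor hh (D := (X t ^ n : A σ) • D) (hD.smul _) (fun i => by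
    rw [hX, Derivation.smul_apply, smul_eq_mul]; ring) 0 a (F_zero a)
  rw [Derivation.smul_apply, smul_eq_mul] at this
  refine F_mono (by omega) this

variable [Fintype σ]

/-- Data: a subgroup normalised by a congruence subgroup. -/
structure Nrm (L : Subgroup (Γ σ)) (n₀ : ℕ) : Prop where
  le : L ≤ N σ 1
  conj : ∀ h ∈ N σ n₀, ∀ l ∈ L, h * l * h⁻¹ ∈ L

/-- `z` is realised to any relative precision by elements of `L`, in the direction `t`. -/
def Good (L : Subgroup (Γ σ)) (t : σ) (z : Der σ) : Prop :=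
  ∀ M : ℕ, ∃ n, M + 3 ≤ n ∧ 2 ^ M ∣ n ∧ ∃ u ∈ L, Ap u (X t ^ n) z (n + M + 1)

theorem good_init {L : Subgroup (Γ σ)} {n₀ : ℕ} (hL : Nrm L n₀) {g : Γ σ} (hg : g ∈ L) (t : σ)
    {D : Der σ} (hD : IsVF D) : Good L t (conjD g D - D) := by
  intro M
  have hlt : M + n₀ + 3 < 2 ^ (M + n₀ + 3) := Nat.lt_two_pow_self
  refine ⟨2 ^ (M + n₀ + 3), by omega, pow_dvd_pow _ (by omega), ?_⟩
  set n := 2 ^ (M + n₀ + 3) with hn
  obtain ⟨h, hh, hX, hap⟩ := exists_ap t hD n (by omega)
  refine ⟨g * h * g⁻¹ * h⁻¹, ?_, ?_⟩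
  · have : g * h * g⁻¹ * h⁻¹ = g * (h * g⁻¹ * h⁻¹) := by group
    rw [this]
    exact L.mul_mem hg (hL.conj h (N_mono (by omega) hh) _ (L.inv_mem hg))
  · apply ap_comm (N_one hh) (hL.le hg) (X_pow_mem_F t n) hD (hap.mono (by omega))
    · exact frob_diff (hL.le hg) t (pow_dvd_pow _ (by omega))
    · omega
    · omega

theorem good_lie {L : Subgroup (Γ σ)} {n₀ : ℕ} (hL : Nrm L n₀) {t : σ} {z D : Der σ}
    (hD : IsVF D) (hz : IsVF z) (hg : Good L t z) : Good L t ⁅D, z⁆ := by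
  intro M
  have hlt : M + n₀ + 3 < 2 ^ (M + n₀ + 3) := Nat.lt_two_pow_self
  set n' := 2 ^ (M + n₀ + 3) with hn'
  have h2n' : 2 ∣ n' := dvd_pow_self 2 (by omega)
  obtain ⟨n, hn, hdvd, u, hu, hap⟩ := hg (M + n')
  obtain ⟨h, hh, hX, hap'⟩ := exists_ap t hD n' (by omega)
  refine ⟨n + n', by omega, ?_, h * u * h⁻¹ * u⁻¹, ?_, ?_⟩
  · exact dvd_add (dvd_trans (pow_dvd_pow _ (by omega)) hdvd) (pow_dvd_pow _ (by omega))
  · exact L.mul_mem (hL.conj h (N_mono (by omega) hh) _ hu) (L.inv_mem hu)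
  · have h1 := ap_comm (K := n + (M + n') + 1) (hL.le hu) (N_one hh) (X_pow_mem_F t n) hz hap
      (frob_diff (N_one hh) t hdvd) (by omega) (by omega)
    intro a
    have h2 := conj_sub (N_one hh) (X_pow_mem_F t n') hz hD hap' (der_pow_even z _ h2n')
      (by omega) (by omega) a (2 * n' - 3) (by omega) (by omega)
    have e : (h * u * h⁻¹ * u⁻¹) a - a - X t ^ (n + n') * ⁅D, z⁆ a =
        ((h * u * h⁻¹ * u⁻¹) a - a - X t ^ n * (conjD h z - z) a) +
        X t ^ n * (conjD h z a - z a - X t ^ n' * ⁅D, z⁆ a) := by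
      rw [Derivation.sub_apply, pow_add]; ring
    rw [e]
    refine (F _).add_mem (F_mono (by omega) (h1 a)) ?_
    exact mul_mem_F' (X_pow_mem_F t n) h2 (by omega)

theorem conj_pd {h : Γ σ} (hh : h ∈ N σ 1) {t i : σ} {n : ℕ} (hn : 2 ∣ n)
    (hX : ∀ l, h (X l) = X l + X t ^ n * pd i (X l)) (j : σ) : conjD h (pd j) = pd j := by
  classical
  have hconst : ∀ i l : σ, ∃ c : A σ, (c = 0 ∨ c = 1) ∧ pd i (X l) = c := by
    intro i l
    by_cases hl : l = i
    · subst hl; exact ⟨1, Or.inr rfl, pderiv_X_self⟩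
    · exact ⟨0, Or.inl rfl, pderiv_X_of_ne hl⟩
  have hE : conjD h⁻¹ (pd j) = pd j := by
    apply IsVF.ext (conjD_isVF ((N σ 1).inv_mem hh) (pd_isVF j)) (pd_isVF j)
    intro l
    rw [conjD_apply, inv_inv, hX, map_add]
    obtain ⟨c, hc, hc'⟩ := hconst i l
    obtain ⟨c', hc1, hc1'⟩ := hconst j l
    have h0 : pd j (X t ^ n * pd i (X l)) = 0 := by
      rw [hc', Derivation.leibniz, der_pow_even _ _ hn, smul_zero, add_zero]
      rcases hc with rfl | rfl
      · rw [map_zero, smul_zero]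
      · rw [Derivation.map_one_eq_zero, smul_zero]
    rw [h0, add_zero, hc1']
    rcases hc1 with rfl | rfl
    · rw [map_zero]
    · rw [map_one]
  ext1 a
  rw [conjD_apply]
  have := DFunLike.congr_fun hE (h⁻¹ a)
  rw [conjD_apply, inv_inv, apply_inv] at this
  rw [← this, apply_inv]

theorem good_frob {L : Subgroup (Γ σ)} {n₀ : ℕ} (hL : Nrm L n₀) {t : σ} (s : ℕ) (d : A σ)
    (i j : σ) (hg : Good L t (d ^ 2 ^ s • pd j)) : Good L t ((pd i d) ^ 2 ^ s • pd j) := by
  intro M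
  have hlt : M + n₀ + 3 < 2 ^ (M + n₀ + 3) := Nat.lt_two_pow_self
  set n' := 2 ^ (M + n₀ + 3) with hn'
  have h2n' : 2 ∣ n' := dvd_pow_self 2 (by omega)
  have hs1 : 1 ≤ 2 ^ s := Nat.one_le_two_pow
  obtain ⟨n, hn, hdvd, u, hu, hap⟩ := hg (M + 2 ^ s * n')
  obtain ⟨h, hh, hX, hap'⟩ := exists_ap t (pd_isVF i) n' (by omega)
  have hprod : n' ≤ 2 ^ s * n' := Nat.le_mul_of_pos_left _ hs1
  refine ⟨n + 2 ^ s * n', by omega, ?_, h * u * h⁻¹ * u⁻¹, ?_, ?_⟩
  · exact dvd_add (dvd_trans (pow_dvd_pow _ (by omega)) hdvd)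
      (Dvd.dvd.mul_left (pow_dvd_pow _ (by omega)) _)
  · exact L.mul_mem (hL.conj h (N_mono (by omega) hh) _ hu) (L.inv_mem hu)
  · have h1 := ap_comm (K := n + (M + 2 ^ s * n') + 1) (hL.le hu) (N_one hh) (X_pow_mem_F t n)
      ((pd_isVF j).smul _) hap (frob_diff (N_one hh) t hdvd) (by omega) (by omega)
    intro a
    have h2 : (h d - d - X t ^ n' * pd i d) ^ 2 ^ s ∈ F (2 ^ s * (2 * n' - 2)) :=
      pow_mem_F (hap' d) _
    have e : (h * u * h⁻¹ * u⁻¹) a - a - X t ^ (n + 2 ^ s * n') *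
          ((pd i d) ^ 2 ^ s • pd j) a =
        ((h * u * h⁻¹ * u⁻¹) a - a - X t ^ n *
          (conjD h (d ^ 2 ^ s • pd j) - d ^ 2 ^ s • pd j) a) +
        X t ^ n * ((h d - d - X t ^ n' * pd i d) ^ 2 ^ s * pd j a) := by
      rw [Derivation.sub_apply, conjD_smul, conj_pd (N_one hh) h2n' hX, Derivation.smul_apply,
        Derivation.smul_apply, Derivation.smul_apply, sub_pow_char_pow, sub_pow_char_pow, map_pow,
        mul_pow, ← pow_mul, pow_add, mul_comm n' (2 ^ s), smul_eq_mul, smul_eq_mul, smul_eq_mul]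
      ring
    rw [e]
    refine (F _).add_mem (F_mono (by omega) (h1 a)) ?_
    refine mul_mem_F' (X_pow_mem_F t n) (Ideal.mul_mem_right _ _ h2) ?_
    have h3 : 2 ^ s * (2 * n' - 2) = 2 ^ s * n' + 2 ^ s * (n' - 2) := by
      rw [← mul_add]; congr 1; omega
    have h4 : n' - 2 ≤ 2 ^ s * (n' - 2) := Nat.le_mul_of_pos_left _ hs1
    omega

theorem exists_good {L : Subgroup (Γ σ)} {n₀ : ℕ} (hL : Nrm L n₀) (hne : L ≠ ⊥) :
    ∃ z : Der σ, IsVF z ∧ z ≠ 0 ∧ ∀ t, Good L t z := by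
  obtain ⟨g, hg, hg1⟩ := L.bot_or_exists_ne_one.resolve_left hne
  by_contra hcon
  push Not at hcon
  have hfix : ∀ D : Der σ, IsVF D → conjD g D = D := by
    intro D hD
    by_contra hne'
    obtain ⟨t, ht⟩ := hcon (conjD g D - D) ((conjD_isVF (hL.le hg) hD).sub hD)
      (sub_ne_zero.mpr hne')
    exact ht (good_init hL hg t hD)
  apply hg1
  apply aut_ext (hL.le hg) (N σ 1).one_mem
  intro i
  rw [AlgEquiv.one_apply]
  have h1 := hfix _ (pd_isVF i)
  have h2 := hfix _ ((pd_isVF i).smul (X i))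
  rw [conjD_smul, h1] at h2
  have h3 := DFunLike.congr_fun h2 (X i)
  rw [Derivation.smul_apply, Derivation.smul_apply, pderiv_X_self] at h3
  simpa using h3

theorem exists_good' {L : Subgroup (Γ σ)} {n₀ : ℕ} (hL : Nrm L n₀) (hne : L ≠ ⊥)
    (S : Finset σ) : ∃ z : Der σ, IsVF z ∧ z ≠ 0 ∧ (∀ t, Good L t z) ∧ ∀ i ∈ S, ⁅pd i, z⁆ = 0 := by
  classical
  induction S using Finset.induction_on with
  | empty =>
    obtain ⟨z, h1, h2, h3⟩ := exists_good hL hne
    exact ⟨z, h1, h2, h3, by simp⟩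
  | insert i S hi ih =>
    obtain ⟨z, h1, h2, h3, h4⟩ := ih
    by_cases hz : ⁅pd i, z⁆ = 0
    · refine ⟨z, h1, h2, h3, ?_⟩
      intro j hj
      rcases Finset.mem_insert.mp hj with rfl | hj
      · exact hz
      · exact h4 j hj
    · refine ⟨⁅pd i, z⁆, (pd_isVF i).lie h1, hz, fun t => good_lie hL (pd_isVF i) h1 (h3 t), ?_⟩
      intro j hj
      rcases Finset.mem_insert.mp hj with rfl | hj
      · ext1 a
        rw [Derivation.commutator_apply, Derivation.commutator_apply, Derivation.commutator_apply,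
          map_sub, pd_pd, pd_pd, map_zero, Derivation.zero_apply]
        have : pd j (z (pd j a)) + pd j (z (pd j a)) = 0 := CharTwo.add_self_eq_zero _
        linear_combination -this
      · have h5 : ∀ a, pd j (z a) = z (pd j a) := by
          intro a
          have := DFunLike.congr_fun (h4 j hj) a
          rw [Derivation.commutator_apply, Derivation.zero_apply] at this
          exact sub_eq_zero.mp this
        ext1 a
        rw [Derivation.commutator_apply, Derivation.commutator_apply, Derivation.commutator_apply,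
          map_sub, h5 (pd i a), ← h5 a, pd_comm j i (z a), pd_comm j i a, Derivation.zero_apply]
        ring

theorem exists_const {L : Subgroup (Γ σ)} {n₀ : ℕ} (hL : Nrm L n₀) (hne : L ≠ ⊥) :
    ∃ c : A σ, c ≠ 0 ∧ (∀ i, pd i c = 0) ∧ ∀ t j, Good L t (c • pd j) := by
  classical
  obtain ⟨z, h1, h2, h3, h4⟩ := exists_good' hL hne Finset.univ
  have h4' : ∀ i a, pd i (z a) = z (pd i a) := by
    intro i a
    have := DFunLike.congr_fun (h4 i (Finset.mem_univ i)) a
    rw [Derivation.commutator_apply, Derivation.zero_apply] at this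
    exact sub_eq_zero.mp this
  obtain ⟨m, hm⟩ : ∃ m, z (X m) ≠ 0 := by
    by_contra hcon
    push Not at hcon
    exact h2 (h1.ext IsVF.zero (fun i => by rw [hcon i, Derivation.zero_apply]))
  refine ⟨z (X m), hm, ?_, ?_⟩
  · intro i
    rw [h4']
    by_cases him : m = i
    · subst him; rw [pderiv_X_self, z.map_one_eq_zero]
    · rw [pderiv_X_of_ne him, map_zero]
  · intro t j
    have := good_lie hL (t := t) (D := (X m : A σ) • pd j) ((pd_isVF j).smul _) h1 (h3 t)
    have e : ⁅(X m : A σ) • pd j, z⁆ = z (X m) • pd j := by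
      ext1 a
      rw [Derivation.commutator_apply, Derivation.smul_apply, Derivation.smul_apply,
        Derivation.smul_apply, smul_eq_mul, smul_eq_mul, smul_eq_mul, z.leibniz, h4', smul_eq_mul,
        smul_eq_mul]
      have : pd j a * z (X m) + pd j a * z (X m) = 0 := CharTwo.add_self_eq_zero _
      linear_combination -this
    rwa [e] at this

/-- `P s d`: the vector fields `d^(2^s) ∂_j` are good. -/
def P (L : Subgroup (Γ σ)) (s : ℕ) (d : A σ) : Prop := ∀ t j, Good L t (d ^ 2 ^ s • pd j)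

theorem P_pd {L : Subgroup (Γ σ)} {n₀ : ℕ} (hL : Nrm L n₀) {s : ℕ} {d : A σ} (i : σ)
    (h : P L s d) : P L s (pd i d) := fun t j => good_frob hL s d i j (h t j)

theorem P_mulX {L : Subgroup (Γ σ)} {n₀ : ℕ} (hL : Nrm L n₀) {s : ℕ} (hs : 1 ≤ s) {d : A σ} (i : σ)
    (h : P L s d) : P L s (X i * d) := by
  intro t j
  have := good_lie hL (t := t) (D := ((X i : A σ) ^ 2 ^ s * X j) • pd j) ((pd_isVF j).smul _)
    ((pd_isVF j).smul _) (h t j)
  have e : ⁅((X i : A σ) ^ 2 ^ s * X j) • pd j, d ^ 2 ^ s • pd j⁆ =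
      (X i * d) ^ 2 ^ s • pd j := by
    ext1 a
    have hd : pd j (d ^ 2 ^ s) = 0 := der_pow_even _ _ (two_dvd_pow hs)
    have hx : pd j ((X i : A σ) ^ 2 ^ s) = 0 := der_pow_even _ _ (two_dvd_pow hs)
    rw [Derivation.commutator_apply]
    simp only [Derivation.smul_apply, smul_eq_mul, Derivation.leibniz, hd, hx, pd_pd,
      pderiv_X_self, mul_zero, add_zero, mul_one]
    have : (X i : A σ) ^ 2 ^ s * d ^ 2 ^ s * pd j a + X i ^ 2 ^ s * d ^ 2 ^ s * pd j a = 0 :=
      CharTwo.add_self_eq_zero _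
    rw [mul_pow]
    linear_combination -this
  rwa [e] at this

theorem exists_sqrt {a : A σ} (ha : ∀ i, pd i a = 0) {e : σ →₀ ℕ} (he : coeff e a ≠ 0) :
    ∃ b : A σ, a = b ^ 2 ∧ ∃ e', e = 2 • e' ∧ coeff e' b ≠ 0 := by
  classical
  have hodd : ∀ (e : σ →₀ ℕ) (i : σ), ¬ 2 ∣ e i → coeff e a = 0 := by
    intro e i hi
    have h1 := congrArg (coeff (e - Finsupp.single i 1)) (ha i)
    rw [coeff_pderiv, map_zero] at h1
    have h2 : e - Finsupp.single i 1 + Finsupp.single i 1 = e := by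
      ext j
      simp only [Finsupp.coe_add, Finsupp.coe_tsub, Pi.add_apply, Pi.sub_apply,
        Finsupp.single_apply]
      split_ifs with hij
      · subst hij; omega
      · omega
    rw [h2] at h1
    have h3 : ((e - Finsupp.single i 1 : σ →₀ ℕ) i : ℕ) = e i - 1 := by simp
    rw [h3] at h1
    have h4 : (((e i - 1 : ℕ) : ZMod 2) + 1) = 1 := by
      have : ((e i - 1 : ℕ) : ZMod 2) = 0 := by
        rw [ZMod.natCast_eq_zero_iff]; omega
      rw [this, zero_add]
    rwa [h4, mul_one] at h1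
  let b : A σ := fun e => coeff (2 • e) a
  have hb : ∀ e, coeff e b = coeff (2 • e) a := fun _ => rfl
  have hexp : expand 2 (by norm_num) b = a := by
    ext e
    by_cases hall : ∀ i, 2 ∣ e i
    · choose e' he' using hall
      obtain ⟨e'', rfl⟩ : ∃ e'' : σ →₀ ℕ, e = 2 • e'' := by
        refine ⟨Finsupp.equivFunOnFinite.symm e', ?_⟩
        ext i
        simpa using he' i
      rw [coeff_expand_smul, hb]
    · push Not at hall
      obtain ⟨i, hi⟩ := hall
      rw [coeff_expand_of_not_dvd _ _ _ hi, hodd e i hi]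
  have hsq : b ^ 2 = a := by
    have : ExpChar (ZMod 2) 2 := ExpChar.prime Nat.prime_two
    have := map_frobenius_expand (p := 2) (f := b) (hp := by norm_num)
    rw [← this, hexp]
    ext e
    rw [coeff_map]
    rcases zmod2 (coeff e a) with h | h <;> rw [h] <;> simp
  refine ⟨b, hsq.symm, ?_⟩
  have hall : ∀ i, 2 ∣ e i := by
    intro i
    by_contra hi
    exact he (hodd e i hi)
  choose e' he' using hall
  refine ⟨Finsupp.equivFunOnFinite.symm e', ?_, ?_⟩
  · ext i
    simpa using he' i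
  · rw [hb]
    have : 2 • Finsupp.equivFunOnFinite.symm e' = e := by
      ext i
      simpa using (he' i).symm
    rwa [this]

theorem P_extract {L : Subgroup (Γ σ)} {n₀ : ℕ} (hL : Nrm L n₀) {s : ℕ} (hs : 1 ≤ s) {d : A σ}
    (h : P L s d) {e : σ →₀ ℕ} (he : coeff e d ≠ 0) (S : Finset σ) :
    ∃ d', P L s d' ∧ (∀ i ∈ S, pd i d' = 0) ∧
      ∃ e', Finsupp.degree e' ≤ Finsupp.degree e ∧ coeff e' d' ≠ 0 := by
  classical
  induction S using Finset.induction_on with
  | empty => exact ⟨d, h, by simp, e, le_rfl, he⟩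
  | insert i S hi ih =>
    obtain ⟨d', h1, h2, e', h3, h4⟩ := ih
    by_cases hev : 2 ∣ e' i
    · refine ⟨pd i (X i * d'), P_pd hL i (P_mulX hL hs i h1), ?_, e', h3, ?_⟩
      · intro j hj
        rcases Finset.mem_insert.mp hj with rfl | hj
        · exact pd_pd _ _
        · have hji : i ≠ j := by rintro rfl; exact hi hj
          rw [pd_comm, Derivation.leibniz, h2 j hj, smul_zero, zero_add, pderiv_X_of_ne hji,
            smul_zero, map_zero]
      · rw [coeff_pderiv, mul_comm (X i) d', add_comm e', mul_comm d']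
        rw [show (X i : A σ) = monomial (Finsupp.single i 1) 1 from rfl, coeff_add_monomial_mul,
          one_mul]
        have : ((e' i : ℕ) : ZMod 2) = 0 := (ZMod.natCast_eq_zero_iff _ _).mpr hev
        rw [this, zero_add, mul_one]
        exact h4
    · refine ⟨pd i d', P_pd hL i h1, ?_, e' - Finsupp.single i 1, ?_, ?_⟩
      · intro j hj
        rcases Finset.mem_insert.mp hj with rfl | hj
        · exact pd_pd _ _
        · rw [pd_comm, h2 j hj, map_zero]
      · refine le_trans ?_ h3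
        have h5 : e' - Finsupp.single i 1 + Finsupp.single i 1 = e' := by
          ext j
          simp only [Finsupp.coe_add, Finsupp.coe_tsub, Pi.add_apply, Pi.sub_apply,
            Finsupp.single_apply]
          split_ifs with hij
          · subst hij; omega
          · omega
        conv_rhs => rw [← h5]
        rw [map_add]
        omega
      · have h5 : e' - Finsupp.single i 1 + Finsupp.single i 1 = e' := by
          ext j
          simp only [Finsupp.coe_add, Finsupp.coe_tsub, Pi.add_apply, Pi.sub_apply,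
            Finsupp.single_apply]
          split_ifs with hij
          · subst hij; omega
          · omega
        rw [coeff_pderiv, h5]
        have h6 : ((e' - Finsupp.single i 1 : σ →₀ ℕ) i : ℕ) = e' i - 1 := by simp
        rw [h6]
        have h7 : ((e' i - 1 : ℕ) : ZMod 2) = 0 := by
          rw [ZMod.natCast_eq_zero_iff]; omega
        rw [h7, zero_add, mul_one]
        exact h4

theorem exists_unit {L : Subgroup (Γ σ)} {n₀ : ℕ} (hL : Nrm L n₀) (k : ℕ) :
    ∀ (s : ℕ) (d : A σ) (e : σ →₀ ℕ), 1 ≤ s → Finsupp.degree e = k → coeff e d ≠ 0 → P L s d →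
      ∃ s' d', 1 ≤ s' ∧ P L s' d' ∧ constantCoeff d' ≠ 0 := by
  induction k using Nat.strong_induction_on with
  | _ k ih =>
    intro s d e hs hk he hP
    rcases Nat.eq_zero_or_pos k with rfl | hk0
    · refine ⟨s, d, hs, hP, ?_⟩
      have : e = 0 := by
        rwa [Finsupp.degree_eq_zero_iff] at hk
      subst this
      rwa [coeff_zero_eq_constantCoeff_apply] at he
    · obtain ⟨d', h1, h2, e', h3, h4⟩ := P_extract hL hs hP he Finset.univ
      obtain ⟨b, hb, e'', he'', hcb⟩ := exists_sqrt (fun i => h2 i (Finset.mem_univ i)) h4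
      have hdeg : Finsupp.degree e' = 2 * Finsupp.degree e'' := by
        rw [he'', map_nsmul, smul_eq_mul]
      refine ih (Finsupp.degree e'') (by omega) (s + 1) b e'' (by omega) rfl hcb ?_
      intro t j
      have := h1 t j
      rw [hb, ← pow_mul] at this
      rw [pow_succ, mul_comm (2 ^ s)]
      exact this

/-- `g` has leading vector field `Z` in degree `j`. -/
def Lead (j : ℕ) (g : Γ σ) (Z : Der σ) : Prop := ∀ s, ∀ a ∈ F s, g a - a - Z a ∈ F (s + j + 1)

theorem lead_of_X {g : Γ σ} {j : ℕ} (hg : g ∈ N σ j) (hj : 1 ≤ j) {Z : Der σ} (hZ : IsVF Z)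
    (h : ∀ i, g (X i) - X i - Z (X i) ∈ F (j + 2)) : Lead j g Z := by
  intro s a ha
  have h1 := taylor hg (vf_isVF (fun i => g (X i) - X i)) (fun i => vf_X _ i) s a ha
  have h2 : Rs (j + 1) (vf (fun i => g (X i) - X i) - Z) := by
    apply rs_of_X ((vf_isVF _).sub hZ)
    intro i
    rw [Derivation.sub_apply, vf_X]
    exact h i
  have e : g a - a - Z a = (g a - a - vf (fun i => g (X i) - X i) a) +
      (vf (fun i => g (X i) - X i) - Z) a := by
    rw [Derivation.sub_apply]; ring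
  rw [e]
  exact (F _).add_mem (F_mono (by omega) h1) (F_mono (by omega) (h2 s a ha))

theorem exists_lead {L : Subgroup (Γ σ)} {n₀ : ℕ} (hL : Nrm L n₀) (hne : L ≠ ⊥) (t j : σ) :
    ∃ n, 2 ≤ n ∧ 2 ∣ n ∧ ∃ u ∈ L, u ∈ N σ (n - 1) ∧ Lead (n - 1) u ((X t : A σ) ^ n • pd j) := by
  obtain ⟨c, hc, hc1, hc2⟩ := exists_const hL hne
  obtain ⟨e, he⟩ : ∃ e, coeff e c ≠ 0 := by
    by_contra hcon
    push Not at hcon
    exact hc (by ext e; simpa using hcon e)
  obtain ⟨b, hb, e', he', hcb⟩ := exists_sqrt hc1 he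
  have hPb : P L 1 b := by
    intro t j
    have := hc2 t j
    rwa [hb] at this
  obtain ⟨s', d', hs', hP, hcc⟩ := exists_unit hL _ 1 b e' le_rfl rfl hcb hPb
  have hd1 : d' ^ 2 ^ s' - 1 ∈ F (σ := σ) 1 := by
    rw [mem_F']
    intro e he
    have : e = 0 := by
      rw [← Finsupp.degree_eq_zero_iff]; omega
    subst this
    rw [coeff_zero_eq_constantCoeff_apply, map_sub, map_pow, map_one]
    rcases zmod2 (constantCoeff d') with h | h
    · exact absurd h hcc
    · rw [h, one_pow, sub_self]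
  obtain ⟨n, hn, hdvd, u, hu, hap⟩ := hP t j 1
  have hn2 : 2 ∣ n := by simpa using hdvd
  have hX : (X t : A σ) ^ n ∈ F n := X_pow_mem_F t n
  have hud : u ∈ N σ (n - 1) := ap_depth (hL.le hu) hX hap (by omega) (by omega)
  refine ⟨n, by omega, hn2, u, hu, hud, ?_⟩
  apply lead_of_X hud (by omega) ((pd_isVF j).smul _)
  intro i
  have e : u (X i) - X i - ((X t : A σ) ^ n • pd j) (X i) =
      (u (X i) - X i - X t ^ n * (d' ^ 2 ^ s' • pd j) (X i)) +
      X t ^ n * (d' ^ 2 ^ s' - 1) * pd j (X i) := by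
    rw [Derivation.smul_apply, Derivation.smul_apply, smul_eq_mul, smul_eq_mul]; ring
  rw [e]
  refine (F _).add_mem (F_mono (by omega) (hap _)) (Ideal.mul_mem_right _ _ ?_)
  exact mul_mem_F' hX hd1 (by omega)

end Pool.Agent.K3h96.JI
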