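import Pool.Agent.K3h96.JI.Lead

/-!
# Normal subgroups contain congruence subgroups
-/

namespace Pool.Agent.K3h96.JI

open MvPowerSeries

variable {σ : Type} [Fintype σ]

/-- A finite family of elements of `L` whose brackets fill all sufficiently deep layers. -/
structure Fam (L : Subgroup (Γ σ)) (n₀ : ℕ) (V : Type) where
  g : V → Γ σ
  d : V → ℕ
  Z : V → Der σ
  m : ℕ
  d_pos : ∀ v, 1 ≤ d v
  mem : ∀ v, g v ∈ L
  memN : ∀ v, g v ∈ N σ (d v)
  lead : ∀ v, Lead (d v) (g v) (Z v)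
  le_m : ∀ v, d v + n₀ + 1 ≤ m
  surj : ∀ k, m ≤ k → ∀ e : σ →₀ ℕ, k + 1 ≤ Finsupp.degree e → ∀ j, ∃ v, ∃ W : Der σ,
    Rs (k - d v) W ∧ ⁅Z v, W⁆ = (monomial e (1 : ZMod 2) : A σ) • pd j

theorem exists_type2 [Nontrivial σ] {L : Subgroup (Γ σ)} {n₀ : ℕ} (hL : Nrm L n₀)
    (hne : L ≠ ⊥) (t i : σ) :
    ∃ n, 2 ≤ n ∧ 2 ∣ n ∧ ∃ u ∈ L, u ∈ N σ n ∧ Lead n u (((X t : A σ) ^ n * X i) • pd i) := by
  classical
  obtain ⟨m, hm⟩ := exists_ne i
  obtain ⟨n, hn, hn2, u, hu, hun, hlead⟩ := exists_lead hL hne t m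
  set n'' := 2 * n₀ + 2 with hn''
  have hRs : Rs (n'' + 1)
      (((X m : A σ) * monomial (Finsupp.single i 1 + Finsupp.single t n'') 1) • pd i) := by
    apply rs_smul_pd
    refine mul_mem_F' (X_mem_F m) (monomial_mem_F _ 1 le_rfl) ?_
    simp only [map_add, Finsupp.degree_single]
    omega
  have hG := gr_lie hL ⟨u, hu, hun, hlead⟩ (by omega) hRs (by omega) (by omega)
  rw [lie_type1 t m i hn2 (e := Finsupp.single i 1 + Finsupp.single t n'') (by
    simp only [Finsupp.coe_add, Pi.add_apply, Finsupp.single_apply, hm.symm, if_false, zero_add]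
    split_ifs
    · omega
    · omega)] at hG
  have e1 : n - 1 + (n'' + 1) = n + n'' := by omega
  have e2 : (X t : A σ) ^ n * monomial (Finsupp.single i 1 + Finsupp.single t n'') 1 =
      X t ^ (n + n'') * X i := by
    have h : Finsupp.single t n + (Finsupp.single i 1 + Finsupp.single t n'') =
        Finsupp.single t (n + n'') + Finsupp.single i 1 := by
      ext l
      simp only [Finsupp.coe_add, Pi.add_apply, Finsupp.single_apply]
      split_ifs <;> omega
    rw [show (X i : A σ) = monomial (Finsupp.single i 1) 1 from rfl, X_pow_eq, X_pow_eq,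
      monomial_mul_monomial, monomial_mul_monomial, h]
  rw [e1, e2] at hG
  obtain ⟨g, hg, hg', hg''⟩ := hG
  exact ⟨n + n'', by omega, by omega, g, hg, hg', hg''⟩

theorem exists_fam [Nontrivial σ] {L : Subgroup (Γ σ)} {n₀ : ℕ} (hL : Nrm L n₀)
    (hne : L ≠ ⊥) : Nonempty (Fam L n₀ (Bool × σ × σ)) := by
  classical
  choose n1 hn1 hn1' u1 hu1 hu1' hl1 using fun p : σ × σ => exists_lead hL hne p.1 p.2
  choose n2 hn2 hn2' u2 hu2 hu2' hl2 using fun p : σ × σ => exists_type2 hL hne p.1 p.2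
  let B := ∑ p : σ × σ, n1 p + ∑ p : σ × σ, n2 p + n₀ + 2
  have hB1 : ∀ p, n1 p + n₀ + 2 ≤ B := by
    intro p
    have := Finset.single_le_sum (f := n1) (fun _ _ => Nat.zero_le _) (Finset.mem_univ p)
    simp only [B]; omega
  have hB2 : ∀ p, n2 p + n₀ + 2 ≤ B := by
    intro p
    have := Finset.single_le_sum (f := n2) (fun _ _ => Nat.zero_le _) (Finset.mem_univ p)
    simp only [B]; omega
  refine ⟨{
    g := fun v => if v.1 then u2 v.2 else u1 v.2
    d := fun v => if v.1 then n2 v.2 else n1 v.2 - 1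
    Z := fun v => if v.1 then ((X v.2.1 : A σ) ^ n2 v.2 * X v.2.2) • pd v.2.2
      else ((X v.2.1 : A σ) ^ n1 v.2) • pd v.2.2
    m := Fintype.card σ * B + B
    d_pos := ?_
    mem := ?_
    memN := ?_
    lead := ?_
    le_m := ?_
    surj := ?_ }⟩
  · rintro ⟨b, p⟩
    have h1 := hn1 p
    have h2 := hn2 p
    cases b <;> simp <;> omega
  · rintro ⟨b, p⟩
    cases b
    · simpa using hu1 p
    · simpa using hu2 p
  · rintro ⟨b, p⟩
    cases b
    · simpa using hu1' p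
    · simpa using hu2' p
  · rintro ⟨b, p⟩
    cases b
    · simpa using hl1 p
    · simpa using hl2 p
  · rintro ⟨b, p⟩
    have h1 := hB1 p
    have h2 := hB2 p
    cases b <;> simp <;> omega
  · intro k hk e he j
    obtain ⟨t, ht⟩ : ∃ t, B ≤ e t := by
      by_contra hcon
      push Not at hcon
      have : Finsupp.degree e ≤ Fintype.card σ * B := by
        rw [Finsupp.degree_eq_sum]
        calc ∑ i, e i ≤ ∑ _i : σ, B := Finset.sum_le_sum (fun i _ => (hcon i).le)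
          _ = Fintype.card σ * B := by simp
      omega
    by_cases hall : ∃ i, 2 ∣ e i
    · obtain ⟨i, hi⟩ := hall
      have hb := hB1 (t, i)
      have hev := hn1' (t, i)
      have hle : Finsupp.single t (n1 (t, i)) ≤ e := by
        rw [Finsupp.single_le_iff]; omega
      have hdeg : Finsupp.degree (e - Finsupp.single t (n1 (t, i))) + n1 (t, i) =
          Finsupp.degree e := by
        have := congrArg Finsupp.degree (tsub_add_cancel_of_le hle)
        rwa [map_add, Finsupp.degree_single] at this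
      refine ⟨(false, t, i),
        ((X i : A σ) * monomial (e - Finsupp.single t (n1 (t, i))) 1) • pd j, ?_, ?_⟩
      · apply rs_smul_pd
        refine mul_mem_F' (X_mem_F i) (monomial_mem_F _ 1 le_rfl) ?_
        simp only [Bool.false_eq_true, if_false]
        have h1 := hn1 (t, i)
        omega
      · simp only [Bool.false_eq_true, if_false]
        rw [lie_type1 t i j hev (e := e - Finsupp.single t (n1 (t, i))) (by
          rw [Finsupp.tsub_apply, Finsupp.single_apply]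
          split_ifs with h
          · subst h
            exact Nat.dvd_sub hi hev
          · simpa using hi)]
        rw [X_pow_eq, monomial_mul_monomial, add_tsub_cancel_of_le hle, one_mul]
    · push Not at hall
      obtain ⟨i, hi⟩ := exists_ne j
      have hb := hB2 (t, i)
      have hev := hn2' (t, i)
      have hle : Finsupp.single t (n2 (t, i)) ≤ e := by
        rw [Finsupp.single_le_iff]; omega
      have hdeg : Finsupp.degree (e - Finsupp.single t (n2 (t, i))) + n2 (t, i) =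
          Finsupp.degree e := by
        have := congrArg Finsupp.degree (tsub_add_cancel_of_le hle)
        rwa [map_add, Finsupp.degree_single] at this
      refine ⟨(true, t, i), (monomial (e - Finsupp.single t (n2 (t, i))) 1 : A σ) • pd j, ?_, ?_⟩
      · apply rs_smul_pd
        refine monomial_mem_F _ 1 ?_
        simp only [if_true]
        omega
      · simp only [if_true]
        rw [lie_type2 t hi hev (e := e - Finsupp.single t (n2 (t, i))) (by
          rw [Finsupp.tsub_apply, Finsupp.single_apply]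
          split_ifs with h
          · subst h
            intro h2
            apply hall t
            have h3 := hle t
            rw [Finsupp.single_eq_same] at h3
            omega
          · simpa using hall i)]
        rw [X_pow_eq, monomial_mul_monomial, add_tsub_cancel_of_le hle, one_mul]

omit [Fintype σ] in
theorem der_lie_zero (Z : Der σ) : ⁅Z, (0 : Der σ)⁆ = 0 := by
  ext1 a
  rw [Derivation.commutator_apply, Derivation.zero_apply, Derivation.zero_apply, map_zero,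
    sub_self]

omit [Fintype σ] in
theorem der_lie_add (Z W W' : Der σ) : ⁅Z, W + W'⁆ = ⁅Z, W⁆ + ⁅Z, W'⁆ := by
  ext1 a
  simp only [Derivation.commutator_apply, Derivation.add_apply, map_add]
  ring

variable {V : Type} [Fintype V]

theorem Fam.solve {L : Subgroup (Γ σ)} {n₀ : ℕ} (f : Fam L n₀ V) {k : ℕ} (hk : f.m ≤ k)
    {Z : Der σ} (hZ : Rs k Z) : ∃ W : V → Der σ, (∀ v, Rs (k - f.d v) (W v)) ∧
      Rs (k + 1) (Z - ∑ v, ⁅f.Z v, W v⁆) := by
  classical
  have hadd : ∀ Z Z' : Der σ, (∃ W : V → Der σ, (∀ v, Rs (k - f.d v) (W v)) ∧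
      Rs (k + 1) (Z - ∑ v, ⁅f.Z v, W v⁆)) → (∃ W : V → Der σ, (∀ v, Rs (k - f.d v) (W v)) ∧
      Rs (k + 1) (Z' - ∑ v, ⁅f.Z v, W v⁆)) → (∃ W : V → Der σ, (∀ v, Rs (k - f.d v) (W v)) ∧
      Rs (k + 1) (Z + Z' - ∑ v, ⁅f.Z v, W v⁆)) := by
    rintro Z Z' ⟨W, h1, h2⟩ ⟨W', h1', h2'⟩
    refine ⟨fun v => W v + W' v, fun v => (h1 v).add (h1' v), ?_⟩
    have e : Z + Z' - ∑ v, ⁅f.Z v, W v + W' v⁆ = (Z - ∑ v, ⁅f.Z v, W v⁆) +
        (Z' - ∑ v, ⁅f.Z v, W' v⁆) := by
      simp only [der_lie_add, Finset.sum_add_distrib]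
      abel
    rw [e]
    exact h2.add h2'
  have hsmul : ∀ (j : σ) (b : A σ), b ∈ F (k + 1) → (∃ W : V → Der σ,
      (∀ v, Rs (k - f.d v) (W v)) ∧ Rs (k + 1) (b • pd j - ∑ v, ⁅f.Z v, W v⁆)) := by
    intro j b hb
    refine F_induction (t := k + 1) (T := k + 2) (P := fun b => ∃ W : V → Der σ,
      (∀ v, Rs (k - f.d v) (W v)) ∧ Rs (k + 1) (b • pd j - ∑ v, ⁅f.Z v, W v⁆)) ?_ ?_ ?_ hb
    · intro a b ha hb
      rw [add_smul]
      exact hadd _ _ ha hb
    · intro e he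
      obtain ⟨v, W, hW, hW'⟩ := f.surj k hk e he j
      refine ⟨Pi.single v W, ?_, ?_⟩
      · intro v'
        by_cases h : v' = v
        · subst h; rw [Pi.single_eq_same]; exact hW
        · rw [Pi.single_eq_of_ne h]; exact Rs.zero _
      · have : ∑ v', ⁅f.Z v', (Pi.single v W : V → Der σ) v'⁆ = ⁅f.Z v, W⁆ := by
          rw [Finset.sum_eq_single v]
          · rw [Pi.single_eq_same]
          · intro v' _ h
            rw [Pi.single_eq_of_ne h, der_lie_zero]
          · intro h; exact absurd (Finset.mem_univ v) h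
        rw [this, hW', sub_self]
        exact Rs.zero _
    · intro a ha
      refine ⟨fun _ => 0, fun _ => Rs.zero _, ?_⟩
      simp only [der_lie_zero, Finset.sum_const_zero, sub_zero]
      exact rs_smul_pd ha j
  have hsum : ∀ S : Finset σ, (∃ W : V → Der σ, (∀ v, Rs (k - f.d v) (W v)) ∧
      Rs (k + 1) ((∑ i ∈ S, Z (X i) • pd i) - ∑ v, ⁅f.Z v, W v⁆)) := by
    intro S
    induction S using Finset.induction_on with
    | empty =>
      refine ⟨fun _ => 0, fun _ => Rs.zero _, ?_⟩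
      simp only [der_lie_zero, Finset.sum_const_zero, Finset.sum_empty, sub_zero]
      exact Rs.zero _
    | insert i S hi ih =>
      rw [Finset.sum_insert hi]
      refine hadd _ _ (hsmul i _ ?_) ih
      have := hZ 1 _ (X_mem_F i)
      rwa [add_comm]
  have := hsum Finset.univ
  rw [eq_vf Z 1 hZ.isVF]
  exact this

omit [Fintype σ] [Fintype V] in
theorem list_eqv {k : ℕ} {c c' x : V → Γ σ} (hx : ∀ v, x v ∈ N σ k)
    (hc : ∀ v, c v ∈ N σ 1) (hc' : ∀ v, c' v ∈ N σ 1)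
    (h : ∀ v, Eqv (k + 1) (c' v) (x v * c v)) (vs : List V) :
    Eqv (k + 1) (vs.map c').prod ((vs.map x).prod * (vs.map c).prod) := by
  have hN1 : ∀ v, x v ∈ N σ 1 := fun v => N_one (hx v)
  have hprodc : ∀ vs : List V, (vs.map c).prod ∈ N σ 1 := fun vs =>
    (N σ 1).list_prod_mem (by simp only [List.mem_map]; rintro _ ⟨v, _, rfl⟩; exact hc v)
  have hprodc' : ∀ vs : List V, (vs.map c').prod ∈ N σ 1 := fun vs =>
    (N σ 1).list_prod_mem (by simp only [List.mem_map]; rintro _ ⟨v, _, rfl⟩; exact hc' v)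
  have hprodx : ∀ vs : List V, (vs.map x).prod ∈ N σ k := fun vs =>
    (N σ k).list_prod_mem (by simp only [List.mem_map]; rintro _ ⟨v, _, rfl⟩; exact hx v)
  induction vs with
  | nil => simpa using Eqv.refl _ _
  | cons v vs ih =>
    simp only [List.map_cons, List.prod_cons]
    have h1 := (h v).mul ((N σ 1).mul_mem (hN1 v) (hc v)) (hprodc' vs) ih
    refine h1.trans ?_
    have h2 := (comm_eqv (hprodx vs) (hc v)).symm
    have h3 : Eqv (k + 1) (x v * (c v * (vs.map x).prod) * (vs.map c).prod)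
        (x v * ((vs.map x).prod * c v) * (vs.map c).prod) :=
      (((Eqv.refl (k + 1) (x v)).mul (hN1 v) ((N σ 1).mul_mem (hc v) (N_one (hprodx vs))) h2)).mul
        ((N σ 1).mul_mem (hN1 v) ((N σ 1).mul_mem (N_one (hprodx vs)) (hc v))) (hprodc vs)
        (Eqv.refl _ _)
    have e1 : x v * c v * ((vs.map x).prod * (vs.map c).prod) =
        x v * (c v * (vs.map x).prod) * (vs.map c).prod := by group
    have e2 : x v * (vs.map x).prod * (c v * (vs.map c).prod) =
        x v * ((vs.map x).prod * c v) * (vs.map c).prod := by group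
    rw [e1, e2]
    exact h3

omit [Fintype σ] [Fintype V] in
theorem list_lead {k : ℕ} (hk : 1 ≤ k) {x : V → Γ σ} {Z : V → Der σ} (hx : ∀ v, x v ∈ N σ k)
    (h : ∀ v, Lead k (x v) (Z v)) (vs : List V) :
    Lead k (vs.map x).prod (vs.map Z).sum := by
  induction vs with
  | nil => simpa using lead_one k
  | cons v vs ih =>
    simp only [List.map_cons, List.prod_cons, List.sum_cons]
    exact lead_mul hk (hx v)
      ((N σ k).list_prod_mem (by simp only [List.mem_map]; rintro _ ⟨v, _, rfl⟩; exact hx v))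
      (h v) ih

/-- product of commutators -/
noncomputable def prodc (g h : V → Γ σ) : Γ σ :=
  ((Finset.univ : Finset V).toList.map (fun v => g v * h v * (g v)⁻¹ * (h v)⁻¹)).prod

omit [Fintype σ] in
theorem prodc_mem {g h : V → Γ σ} (K : Subgroup (Γ σ))
    (H : ∀ v, g v * h v * (g v)⁻¹ * (h v)⁻¹ ∈ K) : prodc g h ∈ K :=
  K.list_prod_mem (by simp only [List.mem_map]; rintro _ ⟨v, _, rfl⟩; exact H v)

omit [Fintype σ] in
theorem prodc_eqv {g h h' : V → Γ σ} {k : ℕ} (hg : ∀ v, g v ∈ N σ 1) (hh : ∀ v, h v ∈ N σ 1)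
    (hh' : ∀ v, h' v ∈ N σ 1) (H : ∀ v, Eqv k (h v) (h' v)) : Eqv k (prodc g h) (prodc g h') := by
  have hc : ∀ (h : V → Γ σ), (∀ v, h v ∈ N σ 1) → ∀ v,
      g v * h v * (g v)⁻¹ * (h v)⁻¹ ∈ N σ 1 := fun h hh v =>
    (N σ 1).mul_mem ((N σ 1).mul_mem ((N σ 1).mul_mem (hg v) (hh v)) ((N σ 1).inv_mem (hg v)))
      ((N σ 1).inv_mem (hh v))
  have key : ∀ v, Eqv k (g v * h v * (g v)⁻¹ * (h v)⁻¹) (g v * h' v * (g v)⁻¹ * (h' v)⁻¹) := by
    intro v
    refine Eqv.mul ?_ ((N σ 1).inv_mem (hh v)) (Eqv.mul ?_ ((N σ 1).inv_mem (hg v))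
      (Eqv.mul (hg v) (hh v) (Eqv.refl _ _) (H v)) (Eqv.refl _ _)) ((H v).inv (hh v) (hh' v))
    · exact (N σ 1).mul_mem ((N σ 1).mul_mem (hg v) (hh' v)) ((N σ 1).inv_mem (hg v))
    · exact (N σ 1).mul_mem (hg v) (hh' v)
  unfold prodc
  generalize (Finset.univ : Finset V).toList = vs
  induction vs with
  | nil => simpa using Eqv.refl _ _
  | cons v vs ih =>
    simp only [List.map_cons, List.prod_cons]
    refine Eqv.mul (hc h' hh' v) ?_ (key v) ih
    exact (N σ 1).list_prod_mem (by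
      simp only [List.mem_map]; rintro _ ⟨v, _, rfl⟩; exact hc h hh v)

theorem Fam.step {L : Subgroup (Γ σ)} {n₀ : ℕ} (hn₀ : 1 ≤ n₀) (f : Fam L n₀ V)
    {u : Γ σ} (hu : u ∈ N σ 1) {k : ℕ} (hk : f.m ≤ k) (h : V → Γ σ) (hh : ∀ v, h v ∈ N σ n₀)
    (H : Eqv k u (prodc f.g h)) :
    ∃ h' : V → Γ σ, (∀ v, h' v ∈ N σ n₀) ∧ Eqv (k + 1) u (prodc f.g h') ∧
      ∀ v, h' v * (h v)⁻¹ ∈ N σ (k - f.d v) := by
  have hg1 : ∀ v, f.g v ∈ N σ 1 := fun v => N_one (f.memN v)
  have hh1 : ∀ v, h v ∈ N σ 1 := fun v => N_one (hh v)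
  have hc : ∀ v, f.g v * h v * (f.g v)⁻¹ * (h v)⁻¹ ∈ N σ (f.d v + n₀) := fun v =>
    comm_mem (by omega) (f.memN v) (hh v)
  have hP1 : prodc f.g h ∈ N σ 1 := prodc_mem _ (fun v => N_one (hc v))
  have he : u * (prodc f.g h)⁻¹ ∈ N σ k := (eqv_iff hu hP1).mp H
  rcases isEmpty_or_nonempty V with hV | ⟨⟨v0⟩⟩
  · -- degenerate case
    obtain ⟨Ze, hZe⟩ : ∃ Z : Der σ, Lead (max k 1) (1 : Γ σ) Z := ⟨0, lead_one _⟩
    refine ⟨h, hh, ?_, fun v => (hV.false v).elim⟩
    have hk1 : 1 ≤ k ∨ k = 0 := by omega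
    -- use the surjectivity to see that everything is trivial
    rcases hk1 with hk1 | hk0
    · obtain ⟨Z, hZ⟩ := exists_lead_of_mem hk1 he
      obtain ⟨W, _, hW⟩ := f.solve hk (hZ.rs he)
      rw [Finset.univ_eq_empty, Finset.sum_empty, sub_zero] at hW
      have h1 := lead_eqv hZ (lead_one k) (by rwa [sub_zero])
      have h2 := h1.mul (h := prodc f.g h) (h' := prodc f.g h) (N σ 1).one_mem hP1 (Eqv.refl _ _)
      rwa [inv_mul_cancel_right, one_mul] at h2
    · subst hk0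
      have h0 : u * (prodc f.g h)⁻¹ ∈ N σ 1 := (N σ 1).mul_mem hu ((N σ 1).inv_mem hP1)
      exact (eqv_iff hu hP1).mpr h0
  have hk1 : 1 ≤ k := by
    have := f.le_m v0
    omega
  obtain ⟨Z, hZ⟩ := exists_lead_of_mem hk1 he
  obtain ⟨W, hW, hW'⟩ := f.solve hk (hZ.rs he)
  have hkd : ∀ v, f.d v + n₀ + 1 ≤ k := fun v => le_trans (f.le_m v) hk
  choose w hw hlw using fun v => exists_of_rs (k := k - f.d v) (by
    have := hkd v
    omega) (hW v)
  have hwn : ∀ v, w v ∈ N σ n₀ := fun v => N_mono (by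
    have := hkd v
    omega) (hw v)
  have hw1 : ∀ v, w v ∈ N σ 1 := fun v => N_one (hw v)
  refine ⟨fun v => w v * h v, fun v => (N σ n₀).mul_mem (hwn v) (hh v), ?_, ?_⟩
  swap
  · intro v
    rw [mul_inv_cancel_right]
    exact hw v
  -- main computation
  have hx : ∀ v, f.g v * w v * (f.g v)⁻¹ * (w v)⁻¹ ∈ N σ k := fun v => by
    have := comm_mem (by have := f.d_pos v; omega) (f.memN v) (hw v)
    rwa [Nat.add_sub_cancel' (by have := hkd v; omega)] at this
  have hlx : ∀ v, Lead k (f.g v * w v * (f.g v)⁻¹ * (w v)⁻¹) ⁅f.Z v, W v⁆ := fun v => by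
    have := lead_comm (f.memN v) (hw v) (f.lead v) (hlw v)
    rwa [Nat.add_sub_cancel' (by have := hkd v; omega)] at this
  have hc1 : ∀ v, f.g v * h v * (f.g v)⁻¹ * (h v)⁻¹ ∈ N σ 1 := fun v => N_one (hc v)
  have hc'1 : ∀ v, f.g v * (w v * h v) * (f.g v)⁻¹ * (w v * h v)⁻¹ ∈ N σ 1 := fun v =>
    (N σ 1).mul_mem ((N σ 1).mul_mem ((N σ 1).mul_mem (hg1 v) ((N σ 1).mul_mem (hw1 v) (hh1 v)))
      ((N σ 1).inv_mem (hg1 v))) ((N σ 1).inv_mem ((N σ 1).mul_mem (hw1 v) (hh1 v)))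
  have hfac : ∀ v, Eqv (k + 1) (f.g v * (w v * h v) * (f.g v)⁻¹ * (w v * h v)⁻¹)
      ((f.g v * w v * (f.g v)⁻¹ * (w v)⁻¹) * (f.g v * h v * (f.g v)⁻¹ * (h v)⁻¹)) := by
    intro v
    have h1 := comm_mem (by have := f.d_pos v; omega) (hw v) (hc v)
    have h2 : w v * (f.g v * h v * (f.g v)⁻¹ * (h v)⁻¹) * (w v)⁻¹ *
        (f.g v * h v * (f.g v)⁻¹ * (h v)⁻¹)⁻¹ ∈ N σ (k + 1) := N_mono (by
      have := hkd v
      omega) h1
    rw [eqv_iff (hc'1 v) ((N σ 1).mul_mem (N_one (hx v)) (hc1 v))]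
    have h3 : N σ (k + 1) ≤ N σ 1 := fun _ h => N_one h
    -- conjugate of h2 by x
    have h4 : ∀ x ∈ N σ 1, ∀ y ∈ N σ (k + 1), x * y * x⁻¹ ∈ N σ (k + 1) := by
      intro x hx y hy
      have hy1 : y ∈ N σ 1 := N_one hy
      rw [← eqv_one_iff ((N σ 1).mul_mem ((N σ 1).mul_mem hx hy1) ((N σ 1).inv_mem hx))]
      have := ((Eqv.refl (k + 1) x).mul hx hy1 ((eqv_one_iff hy1).mpr hy)).mul
        ((N σ 1).mul_mem hx (N σ 1).one_mem) ((N σ 1).inv_mem hx) (Eqv.refl (k + 1) x⁻¹)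
      rwa [mul_one, mul_inv_cancel] at this
    have h5 := h4 _ (N_one (hx v)) _ h2
    have e : f.g v * (w v * h v) * (f.g v)⁻¹ * (w v * h v)⁻¹ *
        ((f.g v * w v * (f.g v)⁻¹ * (w v)⁻¹) * (f.g v * h v * (f.g v)⁻¹ * (h v)⁻¹))⁻¹ =
        (f.g v * w v * (f.g v)⁻¹ * (w v)⁻¹) * (w v * (f.g v * h v * (f.g v)⁻¹ * (h v)⁻¹) *
          (w v)⁻¹ * (f.g v * h v * (f.g v)⁻¹ * (h v)⁻¹)⁻¹) *
          (f.g v * w v * (f.g v)⁻¹ * (w v)⁻¹)⁻¹ := by
      group
    rw [e]
    exact h5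
  have h6 := list_eqv hx hc1 hc'1 hfac (Finset.univ : Finset V).toList
  have h7 := list_lead hk1 hx hlx (Finset.univ : Finset V).toList
  rw [Finset.sum_map_toList] at h7
  have h8 := lead_eqv hZ h7 hW'
  have hX1 : ((Finset.univ : Finset V).toList.map
      (fun v => f.g v * w v * (f.g v)⁻¹ * (w v)⁻¹)).prod ∈ N σ 1 :=
    (N σ 1).list_prod_mem (by
      simp only [List.mem_map]; rintro _ ⟨v, _, rfl⟩; exact N_one (hx v))
  have h9 := h8.mul (h := prodc f.g h) (h' := prodc f.g h) hX1 hP1 (Eqv.refl _ _)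
  rw [inv_mul_cancel_right] at h9
  exact h9.trans h6.symm

theorem Fam.le {L : Subgroup (Γ σ)} {n₀ : ℕ} (hL : Nrm L n₀) (hn₀ : 1 ≤ n₀) (f : Fam L n₀ V) :
    N σ f.m ≤ L := by
  intro u hu
  have hu1 : u ∈ N σ 1 := N_one hu
  have hg1 : ∀ v, f.g v ∈ N σ 1 := fun v => N_one (f.memN v)
  have hstep : ∀ (n : ℕ) (h : V → Γ σ), ((∀ v, h v ∈ N σ n₀) ∧ Eqv (f.m + n) u (prodc f.g h)) →
      ∃ h' : V → Γ σ, ((∀ v, h' v ∈ N σ n₀) ∧ Eqv (f.m + (n + 1)) u (prodc f.g h')) ∧
        ∀ v, h' v * (h v)⁻¹ ∈ N σ (f.m + n - f.d v) := by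
    intro n h hh
    obtain ⟨h', h1, h2, h3⟩ := f.step hn₀ hu1 (k := f.m + n) (by omega) h hh.1 hh.2
    exact ⟨h', ⟨h1, h2⟩, h3⟩
  choose! S hS1 hS2 using hstep
  let s : ℕ → V → Γ σ := fun n => Nat.rec (fun _ => 1) (fun n h => S n h) n
  have hs0 : s 0 = fun _ => 1 := rfl
  have hss : ∀ n, s (n + 1) = S n (s n) := fun _ => rfl
  have hI : ∀ n, (∀ v, s n v ∈ N σ n₀) ∧ Eqv (f.m + n) u (prodc f.g (s n)) := by
    intro n
    induction n with
    | zero =>
      rw [hs0]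
      refine ⟨fun v => (N σ n₀).one_mem, ?_⟩
      have : prodc f.g (fun _ => (1 : Γ σ)) = 1 := by
        have := prodc_mem (g := f.g) (h := fun _ => (1 : Γ σ)) ⊥ (fun v => by simp)
        simpa using this
      rw [this, eqv_one_iff hu1]
      exact hu
    | succ n ih =>
      rw [hss]
      exact hS1 n (s n) ih
  have hd : ∀ n v, s (n + 1) v * (s n v)⁻¹ ∈ N σ (f.m + n - f.d v) := fun n v => by
    rw [hss]
    exact hS2 n (s n) (hI n) v
  choose hl hl1 hl2 using fun v => complete_aut (fun n => s n v) (fun n => N_one ((hI n).1 v))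
    (fun n => N_mono (by have := f.le_m v; omega) (hd n v))
  have hln : ∀ v, hl v ∈ N σ n₀ := fun v => by
    have := (N σ n₀).mul_mem (hl2 v n₀) ((hI n₀).1 v)
    rwa [inv_mul_cancel_right] at this
  have hP1 : ∀ h : V → Γ σ, (∀ v, h v ∈ N σ 1) → prodc f.g h ∈ N σ 1 := fun h hh =>
    prodc_mem _ (fun v => (N σ 1).mul_mem ((N σ 1).mul_mem ((N σ 1).mul_mem (hg1 v) (hh v))
      ((N σ 1).inv_mem (hg1 v))) ((N σ 1).inv_mem (hh v)))
  have huP : u = prodc f.g hl := by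
    rw [← mul_inv_eq_one]
    apply eq_one_of_N
    intro n
    rw [← eqv_iff hu1 (hP1 _ hl1)]
    refine Eqv.trans ((hI n).2.mono (by omega)) ?_
    apply prodc_eqv hg1 (fun v => N_one ((hI n).1 v)) hl1
    intro v
    exact ((eqv_iff (hl1 v) (N_one ((hI n).1 v))).mpr (hl2 v n)).symm
  rw [huP]
  apply prodc_mem
  intro v
  have : f.g v * hl v * (f.g v)⁻¹ * (hl v)⁻¹ = f.g v * (hl v * (f.g v)⁻¹ * (hl v)⁻¹) := by group
  rw [this]
  exact L.mul_mem (f.mem v) (hL.conj _ (hln v) _ (L.inv_mem (f.mem v)))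

/-- Main theorem: a nontrivial subgroup normalised by a congruence subgroup contains a congruence
subgroup. -/
theorem exists_N_le [Nontrivial σ] {L : Subgroup (Γ σ)} {n₀ : ℕ} (hL : Nrm L n₀)
    (hne : L ≠ ⊥) : ∃ m, 1 ≤ m ∧ N σ m ≤ L := by
  have hL' : Nrm L (n₀ + 1) := ⟨hL.le, fun h hh l hl => hL.conj h (N_mono (by omega) hh) l hl⟩
  obtain ⟨f⟩ := exists_fam hL' hne
  exact ⟨f.m + 1, by omega, fun g hg => f.le hL' (by omega) (N_mono (by omega) hg)⟩

end Pool.Agent.K3h96.JI
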