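import Pool.Agent.K3h96.JI.Defs
import Pool.Agent.K3h96.JI.Hensel

/-!
# The group `Aut¹ F₂[[x]]` is residually finite and hereditarily just infinite
-/

namespace Pool.Agent.K3h96.JI

open MvPowerSeries

variable {σ : Type} [Fintype σ]

/-- The group of automorphisms of the power series ring acting trivially on `m / m²`. -/
abbrev J (σ : Type) := ↥(N σ 1)

omit [Fintype σ] in
theorem conj_mem_N {j : ℕ} {h x : Γ σ} (hh : h ∈ N σ 1) (hx : x ∈ N σ j) :
    h * x * h⁻¹ ∈ N σ j := by
  have hh' := (N σ 1).inv_mem hh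
  refine ⟨((N σ 1).mul_mem ((N σ 1).mul_mem hh (N_one hx)) hh').1, ?_⟩
  intro t a ha
  have e : (h * x * h⁻¹) a - a = h (x (h⁻¹ a) - h⁻¹ a) := by
    rw [AlgEquiv.mul_apply, AlgEquiv.mul_apply, map_sub, apply_inv]
  rw [e]
  exact pres hh (hx.2 _ _ (pres hh' ha))

/-- The congruence subgroups of `J`. -/
noncomputable def NJ (σ : Type) (m : ℕ) : Subgroup (J σ) := (N σ m).subgroupOf (N σ 1)

omit [Fintype σ] in
theorem mem_NJ {m : ℕ} {g : J σ} : g ∈ NJ σ m ↔ (g : Γ σ) ∈ N σ m := Subgroup.mem_subgroupOf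

omit [Fintype σ] in
theorem NJ_normal (m : ℕ) : (NJ σ m).Normal := by
  constructor
  intro x hx g
  rw [mem_NJ] at *
  simpa using conj_mem_N g.2 hx

theorem NJ_finiteIndex (m : ℕ) : (NJ σ m).FiniteIndex := by
  classical
  let T := σ → {e : σ →₀ ℕ // Finsupp.degree e < m + 1} → ZMod 2
  have hfin : Finite {e : σ →₀ ℕ // Finsupp.degree e < m + 1} :=
    (Finsupp.finite_of_degree_lt (m + 1)).to_subtype
  let f : J σ → T := fun g i e => coeff e.1 ((g : Γ σ) (X i))
  have hf : ∀ g h : J σ, f g = f h → g⁻¹ * h ∈ NJ σ m := by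
    intro g h hgh
    rw [mem_NJ]
    push_cast
    have hg' := (N σ 1).inv_mem g.2
    apply mem_N_of_X ((N σ 1).mul_mem hg' h.2)
    intro i
    have e : ((g : Γ σ)⁻¹ * (h : Γ σ)) (X i) - X i =
        (g : Γ σ)⁻¹ ((h : Γ σ) (X i) - (g : Γ σ) (X i)) := by
      rw [AlgEquiv.mul_apply, map_sub, inv_apply]
    rw [e]
    apply pres hg'
    rw [mem_F']
    intro e he
    have := congrFun (congrFun hgh i) ⟨e, he⟩
    simp only [f] at this
    rw [map_sub, this, sub_self]
  rw [Subgroup.finiteIndex_iff_finite_quotient]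
  let F' : Set.range f → J σ ⧸ NJ σ m := fun x => ((Classical.choose x.2 : J σ) : J σ ⧸ NJ σ m)
  have hsurj : Function.Surjective F' := by
    intro q
    induction q using QuotientGroup.induction_on with
    | _ g =>
      refine ⟨⟨f g, g, rfl⟩, ?_⟩
      simp only [F']
      rw [QuotientGroup.eq]
      exact hf _ _ (Classical.choose_spec (⟨g, rfl⟩ : ∃ y, f y = f g))
  exact Finite.of_surjective F' hsurj

theorem finiteIndex_of_le' {K : Subgroup (J σ)} {m : ℕ} (h : ∀ g : J σ, (g : Γ σ) ∈ N σ m → g ∈ K) :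
    K.FiniteIndex := by
  have := NJ_finiteIndex (σ := σ) m
  exact Subgroup.finiteIndex_of_le (H := NJ σ m) (fun g hg => h g (mem_NJ.mp hg))

theorem J_infinite [Nonempty σ] : Infinite (J σ) := by
  classical
  obtain ⟨t⟩ := ‹Nonempty σ›
  choose g hg hX using fun n : ℕ => exists_aut (σ := σ) 1 le_rfl (fun _ => X t ^ (n + 2))
    (fun _ => F_mono (by omega) (X_pow_mem_F t (n + 2)))
  refine Infinite.of_injective (fun n => (⟨g n, hg n⟩ : J σ)) ?_
  intro n m hnm
  have h1 : g n = g m := congrArg Subtype.val hnm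
  have h2 := hX n t
  rw [h1, hX m t] at h2
  have h3 := add_left_cancel h2
  rw [X_pow_eq, X_pow_eq] at h3
  have h4 := congrArg (coeff (Finsupp.single t (m + 2))) h3
  rw [coeff_monomial_same, coeff_monomial] at h4
  split_ifs at h4 with h5
  · have := Finsupp.single_injective t h5
    omega
  · exact absurd h4 (by decide)

theorem eq_one_of_NJ {g : J σ} (h : ∀ m, g ∈ NJ σ m) : g = 1 := by
  apply Subtype.ext
  exact eq_one_of_N (fun j => mem_NJ.mp (h j))

theorem J_residuallyFinite : IsResiduallyFinite (J σ) := by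
  intro g hg
  apply eq_one_of_NJ
  intro m
  exact hg _ (NJ_normal m) (NJ_finiteIndex m)

variable [Nontrivial σ]

/-- nontrivial subgroups of `J` normalised by a congruence subgroup contain a congruence
subgroup -/
theorem J_key {K : Subgroup (J σ)} (hne : K ≠ ⊥) {n₀ : ℕ}
    (h : ∀ g : J σ, (g : Γ σ) ∈ N σ n₀ → ∀ l ∈ K, g * l * g⁻¹ ∈ K) :
    ∃ m, 1 ≤ m ∧ ∀ g : J σ, (g : Γ σ) ∈ N σ m → g ∈ K := by
  have hL : Nrm (K.map (N σ 1).subtype) n₀ := by
    constructor
    · intro y hy
      obtain ⟨x, _, hxy⟩ := Subgroup.mem_map.mp hy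
      rw [← hxy]
      exact x.2
    · intro g hg y hy
      obtain ⟨x, hx, hxy⟩ := Subgroup.mem_map.mp hy
      rw [← hxy]
      have h1 := h ⟨g, N_one hg⟩ hg x hx
      have h2 := Subgroup.mem_map_of_mem (N σ 1).subtype h1
      rw [map_mul, map_mul, map_inv] at h2
      exact h2
  have hne' : K.map (N σ 1).subtype ≠ ⊥ := by
    rw [Ne, Subgroup.map_eq_bot_iff_of_injective _ (Subgroup.subtype_injective _)]
    exact hne
  obtain ⟨m, hm, hle⟩ := exists_N_le hL hne'
  refine ⟨m, hm, fun g hg => ?_⟩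
  obtain ⟨x, hx, hxg⟩ := hle hg
  have : x = g := Subtype.ext hxg
  rwa [this] at hx

theorem J_open {H : Subgroup (J σ)} (hH : H.FiniteIndex) :
    ∃ m, 1 ≤ m ∧ ∀ g : J σ, (g : Γ σ) ∈ N σ m → g ∈ H := by
  have hcore : H.normalCore.FiniteIndex := inferInstance
  have hne : H.normalCore ≠ ⊥ := by
    intro hbot
    rw [hbot, Subgroup.finiteIndex_iff_finite_quotient] at hcore
    have : Finite (J σ) := Finite.of_equiv _ (QuotientGroup.quotientBot (G := J σ)).toEquiv
    exact (J_infinite (σ := σ)).not_finite this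
  obtain ⟨m, hm, hle⟩ := J_key hne (n₀ := 1) (fun g _ l hl => H.normalCore_normal.conj_mem l hl g)
  exact ⟨m, hm, fun g hg => H.normalCore_le (hle g hg)⟩

theorem J_hji : IsHereditarilyJustInfinite (J σ) := by
  intro H hH
  constructor
  · by_contra hfin
    rw [not_infinite_iff_finite] at hfin
    have : Finite (J σ) := (Subgroup.finite_iff_finite_and_finiteIndex H).mpr ⟨hfin, hH⟩
    exact (J_infinite (σ := σ)).not_finite this
  · intro K hK hne
    obtain ⟨n₀, hn₀, hle⟩ := J_open hH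
    have hne' : K.map H.subtype ≠ ⊥ := by
      rw [Ne, Subgroup.map_eq_bot_iff_of_injective _ (Subgroup.subtype_injective _)]
      exact hne
    obtain ⟨m, hm, hm'⟩ := J_key hne' (n₀ := n₀) (by
      intro g hg y hy
      obtain ⟨x, hx, hxy⟩ := Subgroup.mem_map.mp hy
      rw [← hxy]
      have h1 := hK.conj_mem x hx ⟨g, hle g hg⟩
      have h2 := Subgroup.mem_map_of_mem H.subtype h1
      rw [map_mul, map_mul, map_inv] at h2
      exact h2)
    have h1 : (K.map H.subtype).FiniteIndex := finiteIndex_of_le' hm'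
    have h2 : ((K.map H.subtype).subgroupOf H).FiniteIndex := inferInstance
    have h3 : (K.map H.subtype).subgroupOf H = K :=
      Subgroup.comap_map_eq_self_of_injective (Subgroup.subtype_injective H) K
    rwa [h3] at h2

end Pool.Agent.K3h96.JI
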