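import Pool.Agent.K3h96.JI.Good

/-!
# Leading vector fields and congruences of automorphisms
-/

namespace Pool.Agent.K3h96.JI

open MvPowerSeries

variable {σ : Type}

/-- congruence of two automorphisms to depth `k` -/
def Eqv (k : ℕ) (g h : Γ σ) : Prop := ∀ s, ∀ a ∈ F s, g a - h a ∈ F (s + k)

theorem Eqv.refl (k : ℕ) (g : Γ σ) : Eqv k g g := fun s a _ => by simp

theorem Eqv.symm {k : ℕ} {g h : Γ σ} (H : Eqv k g h) : Eqv k h g := fun s a ha => by
  have := (F _).neg_mem (H s a ha)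
  simpa using this

theorem Eqv.trans {k : ℕ} {g h l : Γ σ} (H : Eqv k g h) (H' : Eqv k h l) : Eqv k g l :=
  fun s a ha => by
    have := (F _).add_mem (H s a ha) (H' s a ha)
    simpa using this

theorem Eqv.mono {i k : ℕ} (hik : i ≤ k) {g h : Γ σ} (H : Eqv k g h) : Eqv i g h :=
  fun s a ha => F_mono (by omega) (H s a ha)

theorem Eqv.mul {k : ℕ} {g g' h h' : Γ σ} (hg' : g' ∈ N σ 1) (hh : h ∈ N σ 1)
    (H : Eqv k g g') (H' : Eqv k h h') : Eqv k (g * h) (g' * h') := fun s a ha => by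
  have e : (g * h) a - (g' * h') a = (g (h a) - g' (h a)) + g' (h a - h' a) := by
    rw [AlgEquiv.mul_apply, AlgEquiv.mul_apply, map_sub]; ring
  rw [e]
  exact (F _).add_mem (H s _ (pres hh ha)) (pres hg' (H' s a ha))

theorem Eqv.inv {k : ℕ} {g h : Γ σ} (hg : g ∈ N σ 1) (hh : h ∈ N σ 1) (H : Eqv k g h) :
    Eqv k g⁻¹ h⁻¹ := fun s a ha => by
  have e : g⁻¹ a - h⁻¹ a = -(g⁻¹ (g (h⁻¹ a) - h (h⁻¹ a))) := by
    rw [map_sub, inv_apply, apply_inv]; ring
  rw [e]
  exact (F _).neg_mem (pres ((N σ 1).inv_mem hg) (H s _ (pres ((N σ 1).inv_mem hh) ha)))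

theorem eqv_one_iff {k : ℕ} {g : Γ σ} (hg : g ∈ N σ 1) : Eqv k g 1 ↔ g ∈ N σ k := by
  constructor
  · intro H
    exact ⟨hg.1, fun t a ha => by simpa using H t a ha⟩
  · intro H s a ha
    simpa using H.2 s a ha

theorem eqv_iff {k : ℕ} {g h : Γ σ} (hg : g ∈ N σ 1) (hh : h ∈ N σ 1) :
    Eqv k g h ↔ g * h⁻¹ ∈ N σ k := by
  have hh' := (N σ 1).inv_mem hh
  rw [← eqv_one_iff ((N σ 1).mul_mem hg hh')]
  constructor
  · intro H
    have := H.mul (h := h⁻¹) (h' := h⁻¹) hh hh' (Eqv.refl _ _)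
    rwa [mul_inv_cancel] at this
  · intro H
    have := H.mul (h := h) (h' := h) (N σ 1).one_mem hh (Eqv.refl _ _)
    rwa [inv_mul_cancel_right, one_mul] at this

/-- commutators -/
theorem comm_mem {i j : ℕ} (hij : 1 ≤ i + j) {g h : Γ σ} (hg : g ∈ N σ i) (hh : h ∈ N σ j) :
    g * h * g⁻¹ * h⁻¹ ∈ N σ (i + j) := by
  have hg1 := N_one hg
  have hh1 := N_one hh
  have key : Dep (i + j) (g * h * g⁻¹ * h⁻¹ : Γ σ) := by
    intro s a ha
    set a' := g⁻¹ (h⁻¹ a) with ha'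
    have ha'F : a' ∈ F s := pres ((N σ 1).inv_mem hg1) (pres ((N σ 1).inv_mem hh1) ha)
    have h1 : h (g a') = a := by rw [ha', apply_inv, apply_inv]
    have e : (g * h * g⁻¹ * h⁻¹) a - a =
        (g (h a' - a') - (h a' - a')) - (h (g a' - a') - (g a' - a')) := by
      rw [AlgEquiv.mul_apply, AlgEquiv.mul_apply, AlgEquiv.mul_apply, ← ha', map_sub, map_sub, h1]
      ring
    rw [e]
    refine (F _).sub_mem ?_ ?_
    · exact F_mono (by omega) (hg.2 _ _ (hh.2 _ _ ha'F))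
    · exact F_mono (by omega) (hh.2 _ _ (hg.2 _ _ ha'F))
  exact ⟨key.mono hij, key⟩

theorem comm_eqv {k : ℕ} {x y : Γ σ} (hx : x ∈ N σ k) (hy : y ∈ N σ 1) :
    Eqv (k + 1) (x * y) (y * x) := fun s a ha => by
  have e : (x * y) a - (y * x) a = (x (y a - a) - (y a - a)) - (y (x a - a) - (x a - a)) := by
    rw [AlgEquiv.mul_apply, AlgEquiv.mul_apply, map_sub, map_sub]; ring
  rw [e]
  refine (F _).sub_mem ?_ ?_
  · exact F_mono (by omega) (hx.2 _ _ (hy.2 _ _ ha))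
  · exact F_mono (by omega) (hy.2 _ _ (hx.2 _ _ ha))

theorem Lead.rs {j : ℕ} {g : Γ σ} {Z : Der σ} (hg : g ∈ N σ j) (H : Lead j g Z) : Rs j Z :=
  fun s a ha => by
    have e : Z a = (g a - a) - (g a - a - Z a) := by ring
    rw [e]
    exact (F _).sub_mem (hg.2 _ _ ha) (F_mono (by omega) (H s a ha))

theorem lead_comm {i j : ℕ} {g h : Γ σ} {Z W : Der σ} (hg : g ∈ N σ i)
    (hh : h ∈ N σ j) (H : Lead i g Z) (H' : Lead j h W) :
    Lead (i + j) (g * h * g⁻¹ * h⁻¹) ⁅Z, W⁆ := by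
  intro s a ha
  have hg1 := N_one hg
  have hh1 := N_one hh
  have hZ : Rs i Z := H.rs hg
  have hW : Rs j W := H'.rs hh
  set a' := g⁻¹ (h⁻¹ a) with ha'
  have ha'F : a' ∈ F s := pres ((N σ 1).inv_mem hg1) (pres ((N σ 1).inv_mem hh1) ha)
  have h1 : h (g a') = a := by rw [ha', apply_inv, apply_inv]
  have hd : a' - a ∈ F (s + 1) := by
    have e : a' - a = (g⁻¹ (h⁻¹ a) - h⁻¹ a) + (h⁻¹ a - a) := by rw [ha']; ring
    rw [e]
    exact (F _).add_mem (((N σ 1).inv_mem hg1).2 _ _ (pres ((N σ 1).inv_mem hh1) ha))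
      (((N σ 1).inv_mem hh1).2 _ _ ha)
  have e : (g * h * g⁻¹ * h⁻¹) a - a - ⁅Z, W⁆ a =
      (g (h a' - a') - (h a' - a') - Z (h a' - a')) + Z (h a' - a' - W a')
      - (h (g a' - a') - (g a' - a') - W (g a' - a')) - W (g a' - a' - Z a')
      + ⁅Z, W⁆ (a' - a) := by
    rw [AlgEquiv.mul_apply, AlgEquiv.mul_apply, AlgEquiv.mul_apply, ← ha']
    simp only [map_sub, h1, Derivation.commutator_apply]
    ring
  rw [e]
  have hx : h a' - a' ∈ F (s + j) := hh.2 _ _ ha'F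
  have hy : g a' - a' ∈ F (s + i) := hg.2 _ _ ha'F
  refine (F _).add_mem ((F _).sub_mem ((F _).sub_mem ((F _).add_mem ?_ ?_) ?_) ?_) ?_
  · exact F_mono (by omega) (H _ _ hx)
  · exact F_mono (by omega) (hZ _ _ (H' _ _ ha'F))
  · exact F_mono (by omega) (H' _ _ hy)
  · exact F_mono (by omega) (hW _ _ (H _ _ ha'F))
  · exact F_mono (by omega) ((hZ.lie hW) _ _ hd)

theorem lead_one (k : ℕ) : Lead (σ := σ) k 1 0 := fun s a _ => by simp

theorem lead_mul {k : ℕ} (hk : 1 ≤ k) {g h : Γ σ} {Z W : Der σ} (hg : g ∈ N σ k) (hh : h ∈ N σ k)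
    (H : Lead k g Z) (H' : Lead k h W) : Lead k (g * h) (Z + W) := fun s a ha => by
  have e : (g * h) a - a - (Z + W) a =
      (g (h a) - h a - Z (h a)) + Z (h a - a) + (h a - a - W a) := by
    rw [AlgEquiv.mul_apply, Derivation.add_apply, map_sub]; ring
  rw [e]
  refine (F _).add_mem ((F _).add_mem ?_ ?_) ?_
  · exact H _ _ (pres hh ha)
  · exact F_mono (by omega) (H.rs hg _ _ (hh.2 _ _ ha))
  · exact H' _ _ ha

theorem lead_eqv {k : ℕ} {g h : Γ σ} {Z W : Der σ} (H : Lead k g Z) (H' : Lead k h W)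
    (hZW : Rs (k + 1) (Z - W)) : Eqv (k + 1) g h := fun s a ha => by
  have e : g a - h a = (g a - a - Z a) - (h a - a - W a) + (Z - W) a := by
    rw [Derivation.sub_apply]; ring
  rw [e]
  exact (F _).add_mem ((F _).sub_mem (H _ _ ha) (H' _ _ ha)) (hZW _ _ ha)

variable [Fintype σ]

theorem exists_of_rs {k : ℕ} (hk : 1 ≤ k) {W : Der σ} (hW : Rs k W) :
    ∃ h ∈ N σ k, Lead k h W := by
  obtain ⟨h, hh, hX⟩ := exists_aut (σ := σ) k hk (fun i => W (X i)) (fun i => by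
    have := hW 1 _ (X_mem_F i)
    rwa [add_comm])
  refine ⟨h, hh, lead_of_X hh hk hW.isVF ?_⟩
  intro i
  have : h (X i) - X i - W (X i) = 0 := by rw [hX]; ring
  rw [this]
  exact (F _).zero_mem

theorem exists_lead_of_mem {k : ℕ} (hk : 1 ≤ k) {g : Γ σ} (hg : g ∈ N σ k) :
    ∃ Z : Der σ, Lead k g Z := by
  refine ⟨vf (fun i => g (X i) - X i), lead_of_X hg hk (vf_isVF _) ?_⟩
  intro i
  rw [vf_X, sub_self]
  exact (F _).zero_mem

/-- `Z` is a leading vector field of degree `k` of an element of `L`. -/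
def Gr (L : Subgroup (Γ σ)) (k : ℕ) (Z : Der σ) : Prop := ∃ g ∈ L, g ∈ N σ k ∧ Lead k g Z

theorem gr_lie {L : Subgroup (Γ σ)} {n₀ : ℕ} (hL : Nrm L n₀) {i j : ℕ} {Z W : Der σ}
    (hZ : Gr L i Z) (hi : 1 ≤ i) (hW : Rs j W) (hj : 1 ≤ j) (hj' : n₀ ≤ j) :
    Gr L (i + j) ⁅Z, W⁆ := by
  obtain ⟨g, hg, hgi, H⟩ := hZ
  obtain ⟨h, hh, H'⟩ := exists_of_rs hj hW
  refine ⟨g * h * g⁻¹ * h⁻¹, ?_, comm_mem (by omega) hgi hh, lead_comm hgi hh H H'⟩
  have : g * h * g⁻¹ * h⁻¹ = g * (h * g⁻¹ * h⁻¹) := by group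
  rw [this]
  exact L.mul_mem hg (hL.conj h (N_mono hj' hh) _ (L.inv_mem hg))

theorem rs_smul_pd {k : ℕ} {b : A σ} (hb : b ∈ F (k + 1)) (j : σ) : Rs k (b • pd j) := by
  apply rs_of_X ((pd_isVF j).smul _)
  intro i
  rw [Derivation.smul_apply]
  exact Ideal.mul_mem_right _ _ hb

omit [Fintype σ] in
/-- first type of generators -/
theorem lie_type1 (t i j : σ) {n : ℕ} (hn : 2 ∣ n) {e : σ →₀ ℕ} (he : 2 ∣ e i) :
    ⁅((X t : A σ) ^ n) • pd i, ((X i : A σ) * monomial e 1) • pd j⁆ =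
      ((X t : A σ) ^ n * monomial e 1) • pd j := by
  have h1 : pd j ((X t : A σ) ^ n) = 0 := der_pow_even _ _ hn
  have h2 : X i * pd i (monomial e (1 : ZMod 2) : A σ) = 0 := by
    classical
    ext e'
    rw [map_zero, show (X i : A σ) = monomial (Finsupp.single i 1) 1 from rfl,
      coeff_monomial_mul]
    split_ifs with hle
    · rw [coeff_pderiv, coeff_monomial]
      split_ifs with heq
      · have h3 : (((e' - Finsupp.single i 1 : σ →₀ ℕ) i : ℕ) : ZMod 2) + 1 = 0 := by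
          have h4 : (e' - Finsupp.single i 1 : σ →₀ ℕ) i + 1 = e i := by
            rw [← heq]; simp
          have h5 : ((e i : ℕ) : ZMod 2) = 0 := (ZMod.natCast_eq_zero_iff _ _).mpr he
          rw [← h4] at h5
          push_cast at h5
          exact h5
        rw [h3, mul_zero, mul_zero]
      · rw [zero_mul, mul_zero]
    · rfl
  ext1 a
  rw [Derivation.commutator_apply]
  simp only [Derivation.smul_apply, smul_eq_mul, Derivation.leibniz, h1, pderiv_X_self,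
    mul_one, mul_zero, add_zero]
  rw [pd_comm j i a]
  linear_combination (X t ^ n * pd j a) * h2

omit [Fintype σ] in
/-- second type of generators -/
theorem lie_type2 (t : σ) {i j : σ} (hij : i ≠ j) {n : ℕ} (hn : 2 ∣ n) {e : σ →₀ ℕ}
    (he : ¬ 2 ∣ e i) :
    ⁅((X t : A σ) ^ n * X i) • pd i, (monomial e (1 : ZMod 2) : A σ) • pd j⁆ =
      ((X t : A σ) ^ n * monomial e 1) • pd j := by
  have h1 : pd j ((X t : A σ) ^ n) = 0 := der_pow_even _ _ hn
  have h2 : X i * pd i (monomial e (1 : ZMod 2) : A σ) = monomial e 1 := by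
    classical
    ext e'
    rw [show (X i : A σ) = monomial (Finsupp.single i 1) 1 from rfl,
      coeff_monomial_mul, coeff_monomial]
    split_ifs with hle heq
    · subst heq
      rw [coeff_pderiv, tsub_add_cancel_of_le hle, coeff_monomial_same]
      have h4 : (e' - Finsupp.single i 1 : σ →₀ ℕ) i = e' i - 1 := by simp
      have h3 : (((e' - Finsupp.single i 1 : σ →₀ ℕ) i : ℕ) : ZMod 2) = 0 := by
        rw [h4, ZMod.natCast_eq_zero_iff]; omega
      rw [h3, zero_add, mul_one, mul_one]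
    · rw [coeff_pderiv, tsub_add_cancel_of_le hle, coeff_monomial, if_neg heq, zero_mul, mul_zero]
    · rename_i heq
      exfalso
      subst heq
      apply hle
      rw [Finsupp.single_le_iff]
      omega
    · rfl
  ext1 a
  rw [Derivation.commutator_apply]
  simp only [Derivation.smul_apply, smul_eq_mul, Derivation.leibniz, h1, pderiv_X_of_ne hij,
    mul_zero, add_zero]
  rw [pd_comm j i a]
  linear_combination (X t ^ n * pd j a) * h2

end Pool.Agent.K3h96.JI
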