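import Mathlib

/-!
# Linear algebra obstructions to linearity
-/

namespace Pool.Agent.K3h96.JI

open Module

variable {K : Type*} [Field K] {V : Type*} [AddCommGroup V] [Module K V] [FiniteDimensional K V]

/-- A commuting family of involutions of a finite dimensional space in characteristic `≠ 2` is
finite. -/
theorem inv_finite (h2 : (2 : K) ≠ 0) (S : Set (V →ₗ[K] V)) (hS : ∀ s ∈ S, ∀ v, s (s v) = v)
    (hc : ∀ s ∈ S, ∀ t ∈ S, ∀ v, s (t v) = t (s v)) (n : ℕ) :
    ∀ W : Submodule K V, finrank K W = n → (∀ s ∈ S, ∀ w ∈ W, s w ∈ W) →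
      ((fun s : V →ₗ[K] V => s.domRestrict W) '' S).Finite := by
  induction n using Nat.strong_induction_on with
  | _ n ih =>
    intro W hn hW
    by_cases h : ∀ s ∈ S, (∀ w ∈ W, s w = w) ∨ (∀ w ∈ W, s w = -w)
    · refine Set.Finite.subset (Set.toFinite
        {(LinearMap.id : V →ₗ[K] V).domRestrict W, (-LinearMap.id : V →ₗ[K] V).domRestrict W}) ?_
      rintro _ ⟨s, hs, rfl⟩
      rcases h s hs with h | h
      · left
        ext w
        simpa using h w w.2
      · right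
        rw [Set.mem_singleton_iff]
        ext w
        simpa using h w w.2
    · push Not at h
      obtain ⟨s₀, hs₀, ⟨w₁, hw₁, hne₁⟩, ⟨w₂, hw₂, hne₂⟩⟩ := h
      let Wp : Submodule K V := W ⊓ LinearMap.ker (s₀ - LinearMap.id)
      let Wm : Submodule K V := W ⊓ LinearMap.ker (s₀ + LinearMap.id)
      have hWp : ∀ v, v ∈ Wp ↔ v ∈ W ∧ s₀ v = v := by
        intro v
        simp only [Wp, Submodule.mem_inf, LinearMap.mem_ker, LinearMap.sub_apply,
          LinearMap.id_apply, sub_eq_zero]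
      have hWm : ∀ v, v ∈ Wm ↔ v ∈ W ∧ s₀ v = -v := by
        intro v
        simp only [Wm, Submodule.mem_inf, LinearMap.mem_ker, LinearMap.add_apply,
          LinearMap.id_apply, add_eq_zero_iff_eq_neg]
      have hltp : finrank K Wp < n := by
        rw [← hn]
        apply Submodule.finrank_lt_finrank_of_lt
        refine lt_of_le_of_ne inf_le_left ?_
        intro heq
        exact hne₁ ((hWp w₁).mp (by rw [heq]; exact hw₁)).2
      have hltm : finrank K Wm < n := by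
        rw [← hn]
        apply Submodule.finrank_lt_finrank_of_lt
        refine lt_of_le_of_ne inf_le_left ?_
        intro heq
        exact hne₂ ((hWm w₂).mp (by rw [heq]; exact hw₂)).2
      have hfp := ih _ hltp Wp rfl (fun s hs w hw => by
        rw [hWp] at *
        exact ⟨hW s hs w hw.1, by rw [hc s₀ hs₀ s hs, hw.2]⟩)
      have hfm := ih _ hltm Wm rfl (fun s hs w hw => by
        rw [hWm] at *
        exact ⟨hW s hs w hw.1, by rw [hc s₀ hs₀ s hs, hw.2, map_neg]⟩)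
      let Φ : (W →ₗ[K] V) → (Wp →ₗ[K] V) × (Wm →ₗ[K] V) := fun f =>
        (f ∘ₗ Submodule.inclusion inf_le_left, f ∘ₗ Submodule.inclusion inf_le_left)
      apply Set.Finite.of_finite_image (f := Φ)
      · refine Set.Finite.subset (hfp.prod hfm) ?_
        rintro _ ⟨_, ⟨s, hs, rfl⟩, rfl⟩
        exact ⟨⟨s, hs, rfl⟩, ⟨s, hs, rfl⟩⟩
      · intro f _ g _ hfg
        have h1 : f ∘ₗ Submodule.inclusion (inf_le_left : Wp ≤ W) =
            g ∘ₗ Submodule.inclusion (inf_le_left : Wp ≤ W) := congrArg Prod.fst hfg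
        have h3 : f ∘ₗ Submodule.inclusion (inf_le_left : Wm ≤ W) =
            g ∘ₗ Submodule.inclusion (inf_le_left : Wm ≤ W) := congrArg Prod.snd hfg
        ext w
        have hp : (2 : K)⁻¹ • ((w : V) + s₀ w) ∈ Wp := by
          rw [hWp]
          refine ⟨W.smul_mem _ (W.add_mem w.2 (hW _ hs₀ _ w.2)), ?_⟩
          rw [map_smul, map_add, hS s₀ hs₀, add_comm]
        have hm : (2 : K)⁻¹ • ((w : V) - s₀ w) ∈ Wm := by
          rw [hWm]
          refine ⟨W.smul_mem _ (W.sub_mem w.2 (hW _ hs₀ _ w.2)), ?_⟩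
          rw [map_smul, map_sub, hS s₀ hs₀, ← smul_neg, neg_sub]
        have e1 := DFunLike.congr_fun h1 ⟨_, hp⟩
        have e2 := DFunLike.congr_fun h3 ⟨_, hm⟩
        simp only [LinearMap.comp_apply] at e1 e2
        have hsum : w = Submodule.inclusion (inf_le_left : Wp ≤ W) ⟨_, hp⟩ +
            Submodule.inclusion (inf_le_left : Wm ≤ W) ⟨_, hm⟩ := by
          apply Subtype.ext
          simp only [Submodule.coe_add, Submodule.coe_inclusion]
          rw [← smul_add, add_add_sub_cancel, ← two_smul K, smul_smul, inv_mul_cancel₀ h2,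
            one_smul]
        rw [hsum, map_add, map_add, e1, e2]

/-- relative fixed vectors of commuting involutions in characteristic two -/
theorem exists_fixed (h2 : (2 : K) = 0) (S : Set (V →ₗ[K] V)) (hS : ∀ s ∈ S, ∀ v, s (s v) = v)
    (hc : ∀ s ∈ S, ∀ t ∈ S, ∀ v, s (t v) = t (s v)) (U : Submodule K V)
    (hU : ∀ s ∈ S, ∀ u ∈ U, s u ∈ U) (n : ℕ) :
    ∀ W : Submodule K V, finrank K W = n → U < W → (∀ s ∈ S, ∀ w ∈ W, s w ∈ W) →
      ∃ v ∈ W, v ∉ U ∧ ∀ s ∈ S, s v - v ∈ U := by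
  induction n using Nat.strong_induction_on with
  | _ n ih =>
    intro W hn hUW hW
    by_cases h : ∀ s ∈ S, ∀ w ∈ W, s w - w ∈ U
    · obtain ⟨v, hv, hvU⟩ := SetLike.exists_of_lt hUW
      exact ⟨v, hv, hvU, fun s hs => h s hs v hv⟩
    · push Not at h
      obtain ⟨s₀, hs₀, w₀, hw₀, hne⟩ := h
      let W' : Submodule K V := W ⊓ U.comap (s₀ - LinearMap.id)
      have hW' : ∀ v, v ∈ W' ↔ v ∈ W ∧ s₀ v - v ∈ U := by
        intro v
        simp only [W', Submodule.mem_inf, Submodule.mem_comap, LinearMap.sub_apply,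
          LinearMap.id_apply]
      have hlt : W' < W := by
        refine lt_of_le_of_ne inf_le_left ?_
        intro heq
        exact hne ((hW' w₀).mp (by rw [heq]; exact hw₀)).2
      have hle : U ≤ W' := by
        intro u hu
        rw [hW']
        exact ⟨hUW.le hu, U.sub_mem (hU _ hs₀ _ hu) hu⟩
      have hx : s₀ w₀ - w₀ ∈ W' := by
        rw [hW']
        refine ⟨W.sub_mem (hW _ hs₀ _ hw₀) hw₀, ?_⟩
        have e : s₀ (s₀ w₀ - w₀) - (s₀ w₀ - w₀) = 0 := by
          rw [map_sub, hS s₀ hs₀]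
          have : w₀ - s₀ w₀ - (s₀ w₀ - w₀) = (2 : K) • (w₀ - s₀ w₀) := by
            rw [two_smul]; abel
          rw [this, h2, zero_smul]
        rw [e]
        exact U.zero_mem
      have hUW' : U < W' := lt_of_le_of_ne hle (fun heq => hne (by rw [heq]; exact hx))
      obtain ⟨v, hv, hvU, hv'⟩ := ih (finrank K W') (by
        rw [← hn]
        exact Submodule.finrank_lt_finrank_of_lt hlt) W' rfl hUW' (by
          intro s hs w hw
          rw [hW'] at *
          refine ⟨hW s hs w hw.1, ?_⟩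
          rw [hc s₀ hs₀ s hs, ← map_sub]
          exact hU s hs _ hw.2)
      exact ⟨v, hlt.le hv, hvU, hv'⟩

/-- the ascending central-type series of a family of operators -/
def Uc (B : Set (V →ₗ[K] V)) : ℕ → Submodule K V
  | 0 => ⊥
  | i + 1 => ⨅ b ∈ B, (Uc B i).comap (b - LinearMap.id)

omit [FiniteDimensional K V] in
theorem mem_Uc_succ {B : Set (V →ₗ[K] V)} {i : ℕ} {v : V} :
    v ∈ Uc B (i + 1) ↔ ∀ b ∈ B, b v - v ∈ Uc B i := by
  simp only [Uc, Submodule.mem_iInf, Submodule.mem_comap, LinearMap.sub_apply,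
    LinearMap.id_apply]

omit [FiniteDimensional K V] in
theorem Uc_le (B : Set (V →ₗ[K] V)) (i : ℕ) : Uc B i ≤ Uc B (i + 1) := by
  induction i with
  | zero => exact bot_le
  | succ i ih =>
    intro v hv
    rw [mem_Uc_succ] at *
    intro b hb
    exact ih (hv b hb)

omit [FiniteDimensional K V] in
theorem Uc_inv {B : Set (V →ₗ[K] V)} {b : V →ₗ[K] V} (hb : b ∈ B) (i : ℕ) {v : V}
    (hv : v ∈ Uc B i) : b v ∈ Uc B i := by
  cases i with
  | zero =>
    have : v = 0 := by simpa [Uc] using hv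
    rw [this, map_zero]
    exact Submodule.zero_mem _
  | succ i =>
    have h1 := mem_Uc_succ.mp hv b hb
    have := (Uc B (i + 1)).add_mem (Uc_le B i h1) hv
    simpa using this

theorem Uc_lt (h2 : (2 : K) = 0) (E T : Set (V →ₗ[K] V)) (hE : ∀ s ∈ E, ∀ v, s (s v) = v)
    (hEc : ∀ s ∈ E, ∀ t ∈ E, ∀ v, s (t v) = t (s v)) (hT : ∀ s ∈ T, ∀ v, s (s v) = v)
    (hTc : ∀ s ∈ T, ∀ t ∈ T, ∀ v, s (t v) = t (s v))
    (hTE : ∀ t ∈ T, ∀ s ∈ E, ∃ s' ∈ E, ∀ v, s (t v) = t (s' v)) (i : ℕ)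
    (hi : Uc (E ∪ T) i ≠ ⊤) : Uc (E ∪ T) i < Uc (E ∪ T) (i + 1) := by
  set U := Uc (E ∪ T) i with hU
  obtain ⟨v₁, -, hv₁, hv₁'⟩ := exists_fixed h2 E hE hEc U
    (fun s hs u hu => Uc_inv (Or.inl hs) i hu) _ ⊤ rfl (lt_top_iff_ne_top.mpr hi)
    (fun _ _ _ _ => Submodule.mem_top)
  let W₁ : Submodule K V := ⨅ b ∈ E, U.comap (b - LinearMap.id)
  have hW₁ : ∀ v, v ∈ W₁ ↔ ∀ b ∈ E, b v - v ∈ U := by
    intro v
    simp only [W₁, Submodule.mem_iInf, Submodule.mem_comap, LinearMap.sub_apply,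
      LinearMap.id_apply]
  have hUW₁ : U < W₁ := by
    refine lt_of_le_of_ne ?_ (fun heq => hv₁ (by rw [heq, hW₁]; exact hv₁'))
    intro u hu
    rw [hW₁]
    intro b hb
    exact U.sub_mem (Uc_inv (Or.inl hb) i hu) hu
  obtain ⟨v, hv, hvU, hv'⟩ := exists_fixed h2 T hT hTc U
    (fun s hs u hu => Uc_inv (Or.inr hs) i hu) _ W₁ rfl hUW₁ (by
      intro t ht w hw
      rw [hW₁] at *
      intro s hs
      obtain ⟨s', hs', hss'⟩ := hTE t ht s hs
      rw [hss', ← map_sub]
      exact Uc_inv (Or.inr ht) i (hw s' hs'))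
  refine lt_of_le_of_ne (Uc_le _ i) (fun heq => hvU ?_)
  rw [heq, mem_Uc_succ]
  rintro b (hb | hb)
  · exact (hW₁ v).mp hv b hb
  · exact hv' b hb

theorem Uc_top (h2 : (2 : K) = 0) (E T : Set (V →ₗ[K] V)) (hE : ∀ s ∈ E, ∀ v, s (s v) = v)
    (hEc : ∀ s ∈ E, ∀ t ∈ E, ∀ v, s (t v) = t (s v)) (hT : ∀ s ∈ T, ∀ v, s (s v) = v)
    (hTc : ∀ s ∈ T, ∀ t ∈ T, ∀ v, s (t v) = t (s v))
    (hTE : ∀ t ∈ T, ∀ s ∈ E, ∃ s' ∈ E, ∀ v, s (t v) = t (s' v)) :
    Uc (E ∪ T) (finrank K V) = ⊤ := by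
  have key : ∀ i, Uc (E ∪ T) i = ⊤ ∨ i ≤ finrank K (Uc (E ∪ T) i) := by
    intro i
    induction i with
    | zero => right; exact Nat.zero_le _
    | succ i ih =>
      by_cases htop : Uc (E ∪ T) i = ⊤
      · left
        have := Uc_le (E ∪ T) i
        rw [htop] at this
        exact top_le_iff.mp this
      · right
        have h1 := ih.resolve_left htop
        have h3 := Submodule.finrank_lt_finrank_of_lt (Uc_lt h2 E T hE hEc hT hTc hTE i htop)
        omega
  rcases key (finrank K V) with h | h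
  · exact h
  · exact Submodule.eq_top_of_finrank_eq (le_antisymm (Submodule.finrank_le _) h)

omit [FiniteDimensional K V] in
/-- commutators go down the series -/
theorem Uc_comm {B : Set (V →ₗ[K] V)} {c t c' : V →ₗ[K] V} (hc : c ∈ B) (ht : t ∈ B)
    (hcc : ∀ v, c (c v) = v) (htt : ∀ v, t (t v) = v) (hc' : ∀ v, c' v = c (t (c (t v)))) {j : ℕ}
    (h : ∀ i, ∀ v ∈ Uc B (i + j), c v - v ∈ Uc B i) :
    ∀ i, ∀ v ∈ Uc B (i + (j + 1)), c' v - v ∈ Uc B i := by
  intro i v hv
  set w := c (t v) with hw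
  have hwU : w ∈ Uc B (i + (j + 1)) := Uc_inv hc _ (Uc_inv ht _ hv)
  have hv2 : v = t (c w) := by rw [hw, hcc, htt]
  have e : c' v - v = (c (t w - w) - (t w - w)) - (t (c w - w) - (c w - w)) := by
    rw [hc', ← hw, map_sub, map_sub, ← hv2]
    abel
  rw [e]
  refine (Uc B i).sub_mem ?_ ?_
  · apply h i
    have : w ∈ Uc B (i + j + 1) := hwU
    exact mem_Uc_succ.mp this t ht
  · have h1 : c w - w ∈ Uc B (i + 1) := by
      apply h (i + 1)
      have : i + (j + 1) = i + 1 + j := by omega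
      rwa [this] at hwU
    exact mem_Uc_succ.mp h1 t ht

end Pool.Agent.K3h96.JI
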