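import Pool.Agent.K3h96.JI.HJI
import Pool.Agent.K3h96.JI.Lin

/-!
# `Aut¹ F₂[[x]]` is not linear if there are at least three variables
-/

namespace Pool.Agent.K3h96.JI

open MvPowerSeries

variable {σ : Type} [Fintype σ]

open Classical in
/-- the elementary automorphism `x_i ↦ x_i + f` (if `f` has order at least two) -/
noncomputable def sh (i : σ) (f : A σ) : J σ :=
  if h : f ∈ F (σ := σ) 2 then
    ⟨Classical.choose (exists_aut 1 le_rfl (fun l => if l = i then f else 0)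
      (fun l => by split_ifs; exacts [h, (F _).zero_mem])),
      (Classical.choose_spec (exists_aut 1 le_rfl (fun l => if l = i then f else 0)
      (fun l => by split_ifs; exacts [h, (F _).zero_mem]))).1⟩
  else 1

open Classical in
theorem sh_spec (i : σ) {f : A σ} (h : f ∈ F (σ := σ) 2) (l : σ) :
    (sh i f : Γ σ) (X l) = X l + if l = i then f else 0 := by
  unfold sh
  rw [dif_pos h]
  exact (Classical.choose_spec (exists_aut 1 le_rfl (fun l => if l = i then f else 0)
      (fun l => by split_ifs; exacts [h, (F _).zero_mem]))).2 l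

theorem sh_self (i : σ) {f : A σ} (h : f ∈ F (σ := σ) 2) : (sh i f : Γ σ) (X i) = X i + f := by
  rw [sh_spec i h, if_pos rfl]

theorem sh_ne {i l : σ} (hl : l ≠ i) {f : A σ} (h : f ∈ F (σ := σ) 2) :
    (sh i f : Γ σ) (X l) = X l := by
  rw [sh_spec i h, if_neg hl, add_zero]

theorem J_ext {g h : J σ} (H : ∀ i, (g : Γ σ) (X i) = (h : Γ σ) (X i)) : g = h :=
  Subtype.ext (aut_ext g.2 h.2 H)

omit [Fintype σ] in
theorem J_mul_apply (g h : J σ) (a : A σ) : ((g * h : J σ) : Γ σ) a = (g : Γ σ) ((h : Γ σ) a) := rfl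

/-- the additive family of displacements depending on `x` only -/
noncomputable def wp (x : σ) (p : Polynomial (ZMod 2)) : A σ :=
  X x ^ 2 * Polynomial.aeval (X x : A σ) p

omit [Fintype σ] in
theorem wp_mem (x : σ) (p : Polynomial (ZMod 2)) : wp x p ∈ F (σ := σ) 2 :=
  Ideal.mul_mem_right _ _ (X_pow_mem_F x 2)

omit [Fintype σ] in
theorem wp_add (x : σ) (p q : Polynomial (ZMod 2)) : wp x (p + q) = wp x p + wp x q := by
  unfold wp
  rw [map_add, mul_add]

omit [Fintype σ] in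
theorem wp_fixed {x : σ} {g : J σ} (hg : (g : Γ σ) (X x) = X x) (p : Polynomial (ZMod 2)) :
    (g : Γ σ) (wp x p) = wp x p := by
  unfold wp
  rw [map_mul, map_pow, hg]
  congr 1
  have := Polynomial.aeval_algHom_apply ((g : Γ σ) : A σ →ₐ[ZMod 2] A σ) (X x : A σ) p
  change Polynomial.aeval ((g : Γ σ) (X x)) p = (g : Γ σ) (Polynomial.aeval (X x) p) at this
  rw [hg] at this
  exact this.symm

omit [Fintype σ] in
theorem wp_inj (x : σ) : Function.Injective (wp (σ := σ) x) := by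
  intro p q h
  unfold wp at h
  have hX : (X x : A σ) ^ 2 ≠ 0 := by
    intro h0
    rw [X_pow_eq] at h0
    have := congrArg (coeff (Finsupp.single x 2)) h0
    rw [coeff_monomial_same, map_zero] at this
    exact one_ne_zero this
  have h1 := mul_left_cancel₀ hX h
  have hcoe : ∀ p : Polynomial (ZMod 2), ∀ n, coeff (Finsupp.single x n)
      (Polynomial.aeval (X x : A σ) p) = p.coeff n := by
    classical
    intro p n
    rw [Polynomial.aeval_eq_sum_range, map_sum]
    simp only [map_smul, X_pow_eq, coeff_monomial, smul_eq_mul]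
    by_cases hn : n ∈ Finset.range (p.natDegree + 1)
    · rw [Finset.sum_eq_single n]
      · simp
      · intro m _ hm
        rw [if_neg, mul_zero]
        intro h
        exact hm (Finsupp.single_injective x h).symm
      · intro h; exact absurd hn h
    · rw [Finset.sum_eq_zero]
      · rw [Finset.mem_range, not_lt] at hn
        exact (Polynomial.coeff_eq_zero_of_natDegree_lt hn).symm
      · intro m hm
        rw [if_neg, mul_zero]
        intro h
        rw [Finsupp.single_injective x h] at hn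
        exact hn hm
  ext n
  rw [← hcoe, h1, hcoe]

/-- the transvections `x_y ↦ x_y + w(x_x)` -/
noncomputable def Tr (x y : σ) (p : Polynomial (ZMod 2)) : J σ := sh y (wp x p)

theorem Tr_x {x y : σ} (hxy : x ≠ y) (p : Polynomial (ZMod 2)) :
    (Tr x y p : Γ σ) (X x) = X x := sh_ne hxy (wp_mem x p)

theorem Tr_y (x y : σ) (p : Polynomial (ZMod 2)) :
    (Tr x y p : Γ σ) (X y) = X y + wp x p := sh_self y (wp_mem x p)

theorem Tr_ne {x y l : σ} (hl : l ≠ y) (p : Polynomial (ZMod 2)) :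
    (Tr x y p : Γ σ) (X l) = X l := sh_ne hl (wp_mem x p)

theorem Tr_mul {x y : σ} (hxy : x ≠ y) (p q : Polynomial (ZMod 2)) :
    Tr x y p * Tr x y q = Tr x y (p + q) := by
  apply J_ext
  intro l
  rw [J_mul_apply]
  by_cases hl : l = y
  · subst hl
    rw [Tr_y, map_add, Tr_y, wp_fixed (Tr_x hxy p), Tr_y, wp_add]
    ring
  · rw [Tr_ne hl, Tr_ne hl, Tr_ne hl]

theorem Tr_zero {x y : σ} (hxy : x ≠ y) : Tr x y 0 = 1 := by
  have := Tr_mul hxy 0 0
  rw [add_zero] at this
  exact mul_eq_left.mp this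

theorem Tr_sq {x y : σ} (hxy : x ≠ y) (p : Polynomial (ZMod 2)) :
    Tr x y p * Tr x y p = 1 := by
  rw [Tr_mul hxy, CharTwo.add_self_eq_zero, Tr_zero hxy]

/-- functions of `x_x` and `x_y` only, of order at least two -/
def Fn (x y : σ) : Set (A σ) :=
  {f | f ∈ F 2 ∧ ∀ g : J σ, (g : Γ σ) (X x) = X x → (g : Γ σ) (X y) = X y → (g : Γ σ) f = f}

omit [Fintype σ] in
theorem Fn_add {x y : σ} {f f' : A σ} (hf : f ∈ Fn x y) (hf' : f' ∈ Fn x y) :
    f + f' ∈ Fn x y :=
  ⟨(F _).add_mem hf.1 hf'.1, fun g h1 h2 => by rw [map_add, hf.2 g h1 h2, hf'.2 g h1 h2]⟩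

theorem Fn_Tr {x y : σ} (hxy : x ≠ y) {f : A σ} (hf : f ∈ Fn x y) (p : Polynomial (ZMod 2)) :
    (Tr x y p : Γ σ) f ∈ Fn x y := by
  refine ⟨pres (Tr x y p).2 hf.1, fun g h1 h2 => ?_⟩
  have h3 := hf.2 ((Tr x y p)⁻¹ * g * Tr x y p)
  have hinv : (Tr x y p)⁻¹ = Tr x y p := inv_eq_of_mul_eq_one_left (Tr_sq hxy p)
  rw [hinv, J_mul_apply, J_mul_apply, J_mul_apply, J_mul_apply, J_mul_apply, J_mul_apply] at h3
  have h4 := h3 (by rw [Tr_x hxy, h1, Tr_x hxy]) (by
    rw [Tr_y, map_add, h2, wp_fixed h1, map_add, Tr_y, wp_fixed (Tr_x hxy p), add_assoc,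
      CharTwo.add_self_eq_zero, add_zero])
  have h5 : (Tr x y p : Γ σ) ((Tr x y p : Γ σ) ((g : Γ σ) ((Tr x y p : Γ σ) f))) =
      (g : Γ σ) ((Tr x y p : Γ σ) f) := by
    rw [← J_mul_apply, Tr_sq hxy]
    rfl
  rw [← h5, h4]

theorem sh_mul {x y z : σ} (hxz : x ≠ z) (hyz : y ≠ z) {f f' : A σ} (hf : f ∈ Fn x y)
    (hf' : f' ∈ Fn x y) : sh z f * sh z f' = sh z (f + f') := by
  apply J_ext
  intro l
  rw [J_mul_apply]
  by_cases hl : l = z
  · subst hl
    rw [sh_self _ hf'.1, map_add, sh_self _ hf.1, hf'.2 _ (sh_ne hxz hf.1) (sh_ne hyz hf.1),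
      sh_self _ (Fn_add hf hf').1]
    ring
  · rw [sh_ne hl hf'.1, sh_ne hl hf.1, sh_ne hl (Fn_add hf hf').1]

theorem sh_zero (z : σ) : sh z (0 : A σ) = 1 := by
  classical
  apply J_ext
  intro l
  rw [sh_spec z (F 2).zero_mem]
  simp

theorem sh_sq {x y z : σ} (hxz : x ≠ z) (hyz : y ≠ z) {f : A σ} (hf : f ∈ Fn x y) :
    sh z f * sh z f = 1 := by
  rw [sh_mul hxz hyz hf hf, CharTwo.add_self_eq_zero, sh_zero]

theorem sh_inj {x y z : σ} {f f' : A σ} (hf : f ∈ Fn x y) (hf' : f' ∈ Fn x y)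
    (h : sh z f = sh z f') : f = f' := by
  have h1 := sh_self z hf.1
  rw [h, sh_self z hf'.1] at h1
  exact (add_left_cancel h1).symm

theorem Tr_sh {x y z : σ} (hxy : x ≠ y) (hxz : x ≠ z) (hyz : y ≠ z) {f : A σ} (hf : f ∈ Fn x y)
    (p : Polynomial (ZMod 2)) :
    Tr x y p * sh z f = sh z ((Tr x y p : Γ σ) f) * Tr x y p := by
  apply J_ext
  intro l
  rw [J_mul_apply, J_mul_apply]
  have hT := Fn_Tr hxy hf p
  by_cases hl : l = z
  · subst hl
    rw [sh_self _ hf.1, map_add, Tr_ne (Ne.symm hyz), sh_self _ hT.1]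
  · by_cases hly : l = y
    · subst hly
      rw [sh_ne hl hf.1, Tr_y, map_add, sh_ne hl hT.1, wp_fixed (sh_ne hxz hT.1)]
    · rw [sh_ne hl hf.1, Tr_ne hly, sh_ne hl hT.1]

/-- iterated differences -/
noncomputable def Op (x y : σ) (c : Polynomial (ZMod 2) →₀ ZMod 2) (f : A σ) : A σ :=
  c.sum fun p r => r • (Tr x y p : Γ σ) f

theorem Op_shift {x y : σ} (hxy : x ≠ y) (c : Polynomial (ZMod 2) →₀ ZMod 2)
    (q : Polynomial (ZMod 2)) (f : A σ) :
    Op x y (c + c.mapDomain (q + ·)) f = Op x y c f + (Tr x y q : Γ σ) (Op x y c f) := by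
  unfold Op
  rw [Finsupp.sum_add_index' (h := fun p (r : ZMod 2) => r • (Tr x y p : Γ σ) f)
      (fun _ => zero_smul _ _) (fun _ _ _ => add_smul _ _ _),
    Finsupp.sum_mapDomain_index (h := fun p (r : ZMod 2) => r • (Tr x y p : Γ σ) f)
      (fun _ => zero_smul _ _) (fun _ _ _ => add_smul _ _ _)]
  congr 1
  rw [Finsupp.sum, Finsupp.sum, map_sum]
  apply Finset.sum_congr rfl
  intro p _
  rw [map_smul, ← J_mul_apply, Tr_mul hxy]

theorem Op_ne_zero {x y : σ} {c : Polynomial (ZMod 2) →₀ ZMod 2} (hc : c ≠ 0) :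
    ∃ a : ℕ, Op x y c (X y ^ a) ≠ 0 := by
  by_contra hcon
  push Not at hcon
  let χ : Polynomial (ZMod 2) → (Multiplicative ℕ →* A σ) := fun p =>
    powersHom (A σ) (X y + wp x p)
  have hχ : Function.Injective χ := by
    intro p q h
    have h1 := DFunLike.congr_fun h (Multiplicative.ofAdd 1)
    simp only [χ, powersHom_apply, toAdd_ofAdd, pow_one] at h1
    exact wp_inj x (add_left_cancel h1)
  have hdom : IsDomain (A σ) := NoZeroDivisors.to_isDomain _
  have hli := (linearIndependent_monoidHom (Multiplicative ℕ) (A σ)).comp χ hχ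
  rw [linearIndependent_iff] at hli
  have h0 : c.mapRange (algebraMap (ZMod 2) (A σ)) (map_zero _) = 0 := by
    apply hli
    funext a
    have h1 := hcon (Multiplicative.toAdd a)
    unfold Op at h1
    rw [Pi.zero_apply, ← h1, Finsupp.linearCombination_apply,
      Finsupp.sum_mapRange_index (h := fun p (r : A σ) =>
        r • ((fun f : Multiplicative ℕ →* A σ => (f : Multiplicative ℕ → A σ)) ∘ χ) p)
        (fun _ => zero_smul _ _), Finsupp.sum, Finset.sum_apply]
    apply Finset.sum_congr rfl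
    intro p _
    simp only [Function.comp, Pi.smul_apply, χ, powersHom_apply, smul_eq_mul, map_pow, Tr_y]
    rw [Algebra.smul_def]
  apply hc
  ext p
  have h1 := DFunLike.congr_fun h0 p
  rw [Finsupp.mapRange_apply] at h1
  exact (map_eq_zero_iff _ (algebraMap (ZMod 2) (A σ)).injective).mp h1

/-- iterated commutator displacements -/
inductive Q (x y : σ) : ℕ → A σ → Prop
  | base {f : A σ} : f ∈ Fn x y → Q x y 0 f
  | step {k : ℕ} {f : A σ} (p : Polynomial (ZMod 2)) : Q x y k f →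
      Q x y (k + 1) (f + (Tr x y p : Γ σ) f)

theorem Q_mem {x y : σ} (hxy : x ≠ y) {k : ℕ} {f : A σ} (h : Q x y k f) : f ∈ Fn x y := by
  induction h with
  | base h => exact h
  | step p _ ih => exact Fn_add ih (Fn_Tr hxy ih p)

theorem exists_c (k : ℕ) (x y : σ) (hxy : x ≠ y) : ∃ c : Polynomial (ZMod 2) →₀ ZMod 2, c ≠ 0 ∧
    ∀ f ∈ Fn x y, Q x y k (Op x y c f) := by
  classical
  induction k with
  | zero =>
    refine ⟨Finsupp.single 0 1, ?_, ?_⟩
    · simp
    · intro f hf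
      unfold Op
      rw [Finsupp.sum_single_index (by rw [zero_smul]), one_smul, Tr_zero hxy]
      exact Q.base hf
  | succ k ih =>
    obtain ⟨c, hc, h⟩ := ih
    obtain ⟨q₀, hq₀⟩ : ∃ q, c q ≠ 0 := by
      by_contra hcon
      push Not at hcon
      exact hc (Finsupp.ext hcon)
    have hfin : (Set.range (fun s : c.support => q₀ - (s : Polynomial (ZMod 2)))).Finite :=
      Set.finite_range _
    obtain ⟨q, hq⟩ := hfin.exists_notMem
    refine ⟨c + c.mapDomain (q + ·), ?_, ?_⟩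
    · intro h0
      have h1 := DFunLike.congr_fun h0 q₀
      rw [Finsupp.add_apply, Finsupp.zero_apply] at h1
      have h2 : c.mapDomain (q + ·) q₀ = c (q₀ - q) := by
        have := Finsupp.mapDomain_apply (f := (q + ·)) (add_right_injective q) c (q₀ - q)
        rw [← this]
        congr 1
        ring
      have h3 : c (q₀ - q) = 0 := by
        by_contra hne
        apply hq
        refine ⟨⟨q₀ - q, Finsupp.mem_support_iff.mpr hne⟩, ?_⟩
        simp
      rw [h2, h3, add_zero] at h1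
      exact hq₀ h1
    · intro f hf
      rw [Op_shift hxy]
      exact Q.step q (h f hf)

omit [Fintype σ] in
theorem Fn_base {x y : σ} (a : ℕ) : (X x : A σ) ^ 2 * X y ^ a ∈ Fn x y :=
  ⟨Ideal.mul_mem_right _ _ (X_pow_mem_F x 2), fun g h1 h2 => by
    rw [map_mul, map_pow, map_pow, h1, h2]⟩

omit [Fintype σ] in
theorem Fn_base' {x y : σ} (a : ℕ) : (X x : A σ) ^ (a + 2) ∈ Fn x y :=
  ⟨F_mono (by omega) (X_pow_mem_F x (a + 2)), fun g h1 h2 => by
    rw [map_pow, h1]⟩

theorem Op_mul {x y : σ} (hxy : x ≠ y) (c : Polynomial (ZMod 2) →₀ ZMod 2) (f : A σ) :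
    Op x y c (X x ^ 2 * f) = X x ^ 2 * Op x y c f := by
  unfold Op
  rw [Finsupp.sum, Finsupp.sum, Finset.mul_sum]
  apply Finset.sum_congr rfl
  intro p _
  rw [map_mul, map_pow, Tr_x hxy, mul_smul_comm]

theorem exists_Q (k : ℕ) {x y : σ} (hxy : x ≠ y) : ∃ f, Q x y k f ∧ f ≠ 0 := by
  obtain ⟨c, hc, h⟩ := exists_c k x y hxy
  obtain ⟨a, ha⟩ := Op_ne_zero (x := x) (y := y) hc
  refine ⟨_, h _ (Fn_base a), ?_⟩
  rw [Op_mul hxy]
  apply mul_ne_zero _ ha
  intro h0
  rw [X_pow_eq] at h0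
  have := congrArg (coeff (Finsupp.single x 2)) h0
  rw [coeff_monomial_same, map_zero] at this
  exact one_ne_zero this

theorem J_notLinear {x y z : σ} (hxy : x ≠ y) (hxz : x ≠ z) (hyz : y ≠ z) :
    ¬ IsLinear (J σ) := by
  classical
  rintro ⟨K, _, n, f, -, hf⟩
  let V := Fin n → K
  let ρ : J σ →* Module.End K V :=
    (Matrix.toLinAlgEquiv' : Matrix (Fin n) (Fin n) K ≃ₐ[K] _).toMonoidHom.comp
      ((Units.coeHom _).comp f)
  have hρ : Function.Injective ρ := by
    intro a b h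
    apply hf
    apply Units.ext
    exact (Matrix.toLinAlgEquiv' : Matrix (Fin n) (Fin n) K ≃ₐ[K] _).injective h
  let E : Set (V →ₗ[K] V) := (fun f => ρ (sh z f)) '' Fn x y
  let T : Set (V →ₗ[K] V) := Set.range (fun p => ρ (Tr x y p))
  have hE : ∀ s ∈ E, ∀ v, s (s v) = v := by
    rintro _ ⟨f, hf, rfl⟩ v
    have : ρ (sh z f) * ρ (sh z f) = 1 := by rw [← map_mul, sh_sq hxz hyz hf, map_one]
    exact DFunLike.congr_fun this v
  have hEc : ∀ s ∈ E, ∀ t ∈ E, ∀ v, s (t v) = t (s v) := by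
    rintro _ ⟨f, hf, rfl⟩ _ ⟨f', hf', rfl⟩ v
    have : ρ (sh z f) * ρ (sh z f') = ρ (sh z f') * ρ (sh z f) := by
      rw [← map_mul, ← map_mul, sh_mul hxz hyz hf hf', sh_mul hxz hyz hf' hf, add_comm]
    exact DFunLike.congr_fun this v
  by_cases h2 : (2 : K) = 0
  · have hT : ∀ s ∈ T, ∀ v, s (s v) = v := by
      rintro _ ⟨p, rfl⟩ v
      have : ρ (Tr x y p) * ρ (Tr x y p) = 1 := by rw [← map_mul, Tr_sq hxy, map_one]
      exact DFunLike.congr_fun this v
    have hTc : ∀ s ∈ T, ∀ t ∈ T, ∀ v, s (t v) = t (s v) := by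
      rintro _ ⟨p, rfl⟩ _ ⟨q, rfl⟩ v
      have : ρ (Tr x y p) * ρ (Tr x y q) = ρ (Tr x y q) * ρ (Tr x y p) := by
        rw [← map_mul, ← map_mul, Tr_mul hxy, Tr_mul hxy, add_comm]
      exact DFunLike.congr_fun this v
    have hTE : ∀ t ∈ T, ∀ s ∈ E, ∃ s' ∈ E, ∀ v, s (t v) = t (s' v) := by
      rintro _ ⟨p, rfl⟩ _ ⟨f, hf, rfl⟩
      refine ⟨_, ⟨_, Fn_Tr hxy hf p, rfl⟩, fun v => ?_⟩
      have h1 := Tr_sh hxy hxz hyz (Fn_Tr hxy hf p) p
      have h3 : (Tr x y p : Γ σ) ((Tr x y p : Γ σ) f) = f := by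
        rw [← J_mul_apply, Tr_sq hxy]; rfl
      rw [h3] at h1
      have : ρ (sh z f) * ρ (Tr x y p) = ρ (Tr x y p) * ρ (sh z ((Tr x y p : Γ σ) f)) := by
        rw [← map_mul, ← map_mul, h1]
      exact DFunLike.congr_fun this v
    have htop := Uc_top h2 E T hE hEc hT hTc hTE
    have hQ : ∀ k f, Q x y k f → ∀ i, ∀ v ∈ Uc (E ∪ T) (i + (k + 1)),
        ρ (sh z f) v - v ∈ Uc (E ∪ T) i := by
      intro k f h
      induction h with
      | base hf =>
        intro i v hv
        exact mem_Uc_succ.mp hv _ (Or.inl ⟨_, hf, rfl⟩)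
      | @step k f p hQ' ih =>
        have hf := Q_mem hxy hQ'
        have hTf := Fn_Tr hxy hf p
        apply Uc_comm (c := ρ (sh z f)) (t := ρ (Tr x y p)) (Or.inl ⟨_, hf, rfl⟩)
          (Or.inr ⟨p, rfl⟩) (hE _ ⟨_, hf, rfl⟩) (hT _ ⟨p, rfl⟩) _ ih
        intro v
        have h1 : sh z (f + (Tr x y p : Γ σ) f) =
            sh z f * (Tr x y p * (sh z f * Tr x y p)) := by
          rw [← sh_mul hxz hyz hf hTf, ← mul_assoc (Tr x y p), Tr_sh hxy hxz hyz hf p,
            mul_assoc (sh z ((Tr x y p : Γ σ) f)), Tr_sq hxy, mul_one]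
        rw [h1, map_mul, map_mul, map_mul]
        rfl
    obtain ⟨f₀, hf₀, hne⟩ := exists_Q (Module.finrank K V) hxy
    apply hne
    have h3 : ρ (sh z f₀) = 1 := by
      apply LinearMap.ext
      intro v
      have h4 := hQ _ _ hf₀ 0 v (by
        have h5 := Uc_le (E ∪ T) (Module.finrank K V)
        rw [htop] at h5
        rw [zero_add]
        exact h5 Submodule.mem_top)
      have h6 : ρ (sh z f₀) v - v = 0 := by simpa [Uc] using h4
      rw [sub_eq_zero] at h6
      rw [h6]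
      rfl
    rw [← map_one ρ] at h3
    have h7 := hρ h3
    rw [← sh_zero z] at h7
    exact sh_inj (Q_mem hxy hf₀) ⟨(F 2).zero_mem, fun g _ _ => map_zero _⟩ h7
  · have hfin := inv_finite h2 E hE hEc _ ⊤ rfl (fun _ _ _ _ => Submodule.mem_top)
    have hinj : Function.Injective (fun a : ℕ => (ρ (sh z ((X x : A σ) ^ (a + 2)))).domRestrict
        (⊤ : Submodule K V)) := by
      intro a b hab
      have h1 : ρ (sh z ((X x : A σ) ^ (a + 2))) = ρ (sh z ((X x : A σ) ^ (b + 2))) := by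
        apply LinearMap.ext
        intro v
        exact DFunLike.congr_fun hab (⟨v, Submodule.mem_top⟩ : (⊤ : Submodule K V))
      have h3 := sh_inj (Fn_base' (y := y) a) (Fn_base' b) (hρ h1)
      rw [X_pow_eq, X_pow_eq] at h3
      have h4 := congrArg (coeff (Finsupp.single x (b + 2))) h3
      rw [coeff_monomial_same, coeff_monomial] at h4
      split_ifs at h4 with h5
      · have := Finsupp.single_injective x h5
        omega
      · exact absurd h4 (by decide)
    refine Set.infinite_range_of_injective hinj (hfin.subset ?_)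
    rintro _ ⟨a, rfl⟩
    exact ⟨_, ⟨_, Fn_base' a, rfl⟩, rfl⟩

end Pool.Agent.K3h96.JI
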